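import Mathlib

set_option autoImplicit false

open Set Filter Topology Complex Metric

namespace Pool.Agent.Results.MP_70d5b9_an.TipSupremum

/-- The class `S`: analytic and univalent in the unit disc, `f 0 = 0`, `f' 0 = 1`. -/
structure ClassS (f : ℂ → ℂ) : Prop where
  diff : DifferentiableOn ℂ f (ball 0 1)
  inj : InjOn f (ball 0 1)
  map_zero : f 0 = 0
  deriv_zero : deriv f 0 = 1

/-- On the parameter interval `I` the curve `γ` is a regular analytic arc: it coincides on `I` with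
a function that is real analytic with non-zero derivative at every point of `I`. -/
def IsAnalyticArcOn (γ : ℝ → ℂ) (I : Set ℝ) : Prop :=
  ∃ σ : ℝ → ℂ, EqOn γ σ I ∧ ∀ t ∈ I, AnalyticAt ℝ σ t ∧ deriv σ t ≠ 0

/-- `γ : [0, ∞) → ℂ` parametrises a Jordan arc from the finite point `γ 0` to `∞`, made up of
finitely many analytic arcs. -/
structure IsSlitArc (γ : ℝ → ℂ) : Prop where
  cont : ContinuousOn γ (Ici 0)
  inj : InjOn γ (Ici 0)
  tends : Tendsto γ atTop (cocompact ℂ)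
  pieces : ∃ (m : ℕ) (t : ℕ → ℝ), t 0 = 0 ∧ (∀ i < m, t i < t (i + 1)) ∧
    (∀ i < m, IsAnalyticArcOn γ (Icc (t i) (t (i + 1)))) ∧ IsAnalyticArcOn γ (Ici (t m))

/-- `u` is the unit tangent direction at the point `γ t` of the arc, oriented from `γ 0` towards
`∞`: the limit of the normalised chords `(γ s - γ t) / |γ s - γ t|` taken with the sign of
`s - t`. -/
def IsTangentDir (γ : ℝ → ℂ) (t : ℝ) (u : ℂ) : Prop :=
  Tendsto (fun s : ℝ => (SignType.sign (s - t) : ℝ) • (‖γ s - γ t‖⁻¹ • (γ s - γ t)))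
    (𝓝[Ici 0 \ {t}] t) (𝓝 u)

/-- `f` belongs to `S_α`, the omitted set being the slit parametrised by `γ`. -/
structure IsSlitMap (α : ℝ) (f : ℂ → ℂ) (γ : ℝ → ℂ) : Prop where
  mem : ClassS f
  arc : IsSlitArc γ
  compl : (f '' ball 0 1)ᶜ = γ '' Ici 0
  angle : ∀ t ∈ Ici (0 : ℝ), ∀ u : ℂ, IsTangentDir γ t u →
    InnerProductGeometry.angle u (γ t) ≤ α * Real.pi / 2

/-- The continuous extension of `f` to the closed disc, with values in the Riemann sphere, has
`-1` as its only preimage of `∞` and `exp (i φ)` as its only preimage of `ω`. -/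
def HasTipAt (f : ℂ → ℂ) (ω : ℂ) (φ : ℝ) : Prop :=
  ∃ F : ℂ → OnePoint ℂ, ContinuousOn F (closedBall 0 1) ∧ (∀ z ∈ ball (0 : ℂ) 1, F z = (f z : ℂ)) ∧
    (∀ z ∈ sphere (0 : ℂ) 1, F z = OnePoint.infty ↔ z = -1) ∧
    (∀ z ∈ sphere (0 : ℂ) 1, F z = (ω : OnePoint ℂ) ↔ z = exp (φ * I))

/-- The set of all `|φ_f|`, `f ∈ S_α`, `f (-1) = ∞`. -/
def tipSet (α : ℝ) : Set ℝ :=
  {x | ∃ (f : ℂ → ℂ) (γ : ℝ → ℂ) (φ : ℝ), IsSlitMap α f γ ∧ -Real.pi < φ ∧ φ < Real.pi ∧
    HasTipAt f (γ 0) φ ∧ x = |φ|}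

/-- Continuous logarithms on convex sets. -/
theorem exists_log_on_convex {E : Type*} [NormedAddCommGroup E] [NormedSpace ℝ E] {S : Set E}
    (hS : Convex ℝ S) {a : E} (ha : a ∈ S) {h : E → ℂ} (hc : ContinuousOn h S)
    (h0 : ∀ x ∈ S, h x ≠ 0) {e : ℂ} (he : exp e = h a) :
    ∃ g : E → ℂ, ContinuousOn g S ∧ g a = e ∧ ∀ x ∈ S, exp (g x) = h x := by
  classical
  have := hS.contractibleSpace ⟨a, ha⟩
  have := hS.locallyPathConnectedSpace
  rcases isCoveringMapOn_exp.existsUnique_continuousMap_lifts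
    ⟨S.domRestrict h, continuousOn_iff_continuous_domRestrict.mp hc⟩ (a₀ := ⟨a, ha⟩) (e₀ := e)
    (by simpa using he) (fun x ↦ by simpa using h0 x x.2) with ⟨f, ⟨hf0, hf⟩, -⟩
  refine ⟨fun z ↦ if hz : z ∈ S then f ⟨z, hz⟩ else 0, ?_, ?_, ?_⟩
  · rw [continuousOn_iff_continuous_domRestrict]
    convert! map_continuous f
    ext z
    simp
  · simp [ha, hf0]
  · intro x hx
    have := congrFun hf ⟨x, hx⟩
    simp only [hx, dif_pos]
    simpa using this

/-- A continuous function whose values are integer multiples of `2πi` on a preconnected set is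
constant. -/
theorem eq_of_exp_eq_one {X : Type*} [TopologicalSpace X] {S : Set X} (hS : IsPreconnected S)
    {u : X → ℂ} (hu : ContinuousOn u S) (h1 : ∀ x ∈ S, exp (u x) = 1) {x y : X} (hx : x ∈ S)
    (hy : y ∈ S) : u x = u y := by
  have hd : IsDiscrete ((AddSubgroup.zmultiples (2 * Real.pi * I) : AddSubgroup ℂ) : Set ℂ) :=
    ⟨NormedSpace.discreteTopology_zmultiples _⟩
  have hm : MapsTo u S ((AddSubgroup.zmultiples (2 * Real.pi * I) : AddSubgroup ℂ) : Set ℂ) := by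
    intro z hz
    obtain ⟨n, hn⟩ := exp_eq_one_iff.mp (h1 z hz)
    rw [SetLike.mem_coe, AddSubgroup.mem_zmultiples_iff]
    exact ⟨n, by rw [hn]; simp⟩
  exact hS.constant_of_mapsTo hd hu hm hx hy

theorem exists_piece (t : ℕ → ℝ) (s : ℝ) : ∀ n : ℕ, t 0 < s → s < t n → (∀ i ≤ n, s ≠ t i) →
    ∃ i < n, t i < s ∧ s < t (i + 1) := by
  intro n
  induction n with
  | zero => intro h1 h2; exact absurd h2 (not_lt.mpr h1.le)
  | succ n ih =>
    intro h1 h2 h3
    rcases lt_trichotomy s (t n) with h | h | h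
    · obtain ⟨i, hi, h4⟩ := ih h1 h (fun i hi => h3 i (by omega))
      exact ⟨i, by omega, h4⟩
    · exact absurd h (h3 n (by omega))
    · exact ⟨n, by omega, h, h2⟩

theorem exists_finite_hasDerivAt {γ : ℝ → ℂ} (h : IsSlitArc γ) :
    ∃ T : Set ℝ, T.Finite ∧ ∀ s > 0, s ∉ T → ∃ d : ℂ, d ≠ 0 ∧ HasDerivAt γ d s := by
  obtain ⟨m, t, ht0, -, hp, hl⟩ := h.pieces
  refine ⟨t '' Iic m, (finite_Iic m).image t, ?_⟩
  intro s hs hsT
  have hne : ∀ i ≤ m, s ≠ t i := fun i hi h => hsT ⟨i, hi, h.symm⟩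
  have key : ∀ I : Set ℝ, I ∈ 𝓝 s → IsAnalyticArcOn γ I → ∃ d : ℂ, d ≠ 0 ∧ HasDerivAt γ d s := by
    rintro I hI ⟨σ, hσ1, hσ2⟩
    obtain ⟨h1, h2⟩ := hσ2 s (mem_of_mem_nhds hI)
    refine ⟨deriv σ s, h2, ?_⟩
    have h3 : γ =ᶠ[𝓝 s] σ := by
      filter_upwards [hI] with x hx using hσ1 hx
    exact (h1.differentiableAt.hasDerivAt).congr_of_eventuallyEq h3
  rcases lt_or_gt_of_ne (hne m le_rfl) with h1 | h1
  · obtain ⟨i, hi, h2, h3⟩ := exists_piece t s m (by rw [ht0]; exact hs) h1 hne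
    exact key _ (Icc_mem_nhds h2 h3) (hp i hi)
  · exact key _ (Ici_mem_nhds h1) hl

theorem isTangentDir_of_hasDerivAt {γ : ℝ → ℂ} {s : ℝ} {d : ℂ} (hd : d ≠ 0)
    (h : HasDerivAt γ d s) : IsTangentDir γ s (‖d‖⁻¹ • d) := by
  have h1 : Tendsto (slope γ s) (𝓝[≠] s) (𝓝 d) := hasDerivAt_iff_tendsto_slope.mp h
  have h2 : Tendsto (fun x : ℝ => ‖slope γ s x‖⁻¹ • slope γ s x) (𝓝[≠] s) (𝓝 (‖d‖⁻¹ • d)) :=
    (h1.norm.inv₀ (norm_ne_zero_iff.mpr hd)).smul h1
  unfold IsTangentDir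
  refine (h2.mono_left (nhdsWithin_mono s ?_)).congr' ?_
  · rintro x ⟨-, hx⟩; exact hx
  · filter_upwards [self_mem_nhdsWithin] with x hx
    have hx' : x - s ≠ 0 := sub_ne_zero.mpr hx.2
    rw [slope_def_module, norm_smul, mul_inv, norm_inv, inv_inv, smul_smul, smul_smul]
    congr 1
    rcases lt_or_gt_of_ne hx' with h3 | h3
    · rw [sign_neg h3, Real.norm_of_nonpos h3.le]
      simp only [SignType.coe_neg_one]
      field_simp
    · rw [sign_pos h3, Real.norm_of_nonneg h3.le]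
      simp only [SignType.coe_one]
      field_simp

theorem le_of_hasDerivAt_nonneg {g : ℝ → ℝ} (hg : ContinuousOn g (Ici 0)) {T : Set ℝ}
    (hT : T.Finite) (hd : ∀ s > 0, s ∉ T → ∃ d ≥ 0, HasDerivAt g d s) :
    MonotoneOn g (Ici 0) := by
  have key : ∀ n : ℕ, ∀ a b : ℝ, 0 ≤ a → a ≤ b → (T ∩ Ioo a b).ncard ≤ n → g a ≤ g b := by
    intro n
    induction n with
    | zero =>
      intro a b ha hab hc
      have hfin : (T ∩ Ioo a b).Finite := hT.inter_of_left _
      have he : T ∩ Ioo a b = ∅ := (ncard_eq_zero hfin).mp (Nat.le_zero.mp hc)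
      have hd' : ∀ x ∈ interior (Icc a b), ∃ d ≥ 0, HasDerivAt g d x := by
        intro x hx
        rw [interior_Icc] at hx
        refine hd x (ha.trans_lt hx.1) fun hxT => ?_
        have : x ∈ T ∩ Ioo a b := ⟨hxT, hx⟩
        rw [he] at this
        exact this
      have hm : MonotoneOn g (Icc a b) := by
        apply monotoneOn_of_deriv_nonneg (convex_Icc a b)
          (hg.mono (fun x hx => ha.trans hx.1))
        · intro x hx
          obtain ⟨d, -, h⟩ := hd' x hx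
          exact h.differentiableAt.differentiableWithinAt
        · intro x hx
          obtain ⟨d, h0, h⟩ := hd' x hx
          rw [h.deriv]; exact h0
      exact hm (left_mem_Icc.mpr hab) (right_mem_Icc.mpr hab) hab
    | succ n ih =>
      intro a b ha hab hc
      by_cases he : (T ∩ Ioo a b) = ∅
      · exact ih a b ha hab (by rw [he]; simp)
      obtain ⟨c, hcT, hc1, hc2⟩ := nonempty_iff_ne_empty.mpr he
      have hfin : (T ∩ Ioo a b).Finite := hT.inter_of_left _
      have h1 : (T ∩ Ioo a c).ncard < (T ∩ Ioo a b).ncard := by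
        apply ncard_lt_ncard _ hfin
        refine ⟨fun x hx => ⟨hx.1, hx.2.1, hx.2.2.trans hc2⟩, fun h => ?_⟩
        exact (h ⟨hcT, hc1, hc2⟩).2.2.false
      have h2 : (T ∩ Ioo c b).ncard < (T ∩ Ioo a b).ncard := by
        apply ncard_lt_ncard _ hfin
        refine ⟨fun x hx => ⟨hx.1, hc1.trans hx.2.1, hx.2.2⟩, fun h => ?_⟩
        exact (h ⟨hcT, hc1, hc2⟩).2.1.false
      exact (ih a c ha hc1.le (by omega)).trans (ih c b (ha.trans hc1.le) hc2.le (by omega))
  intro a ha b _ hab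
  exact key _ a b ha hab le_rfl

theorem hasDerivAt_log_lift {γ lam : ℝ → ℂ} {s : ℝ} {d : ℂ} (hs : 0 < s)
    (hlam : ContinuousOn lam (Ici 0)) (he : ∀ x ∈ Ici (0 : ℝ), exp (lam x) = γ x)
    (h : HasDerivAt γ d s) : HasDerivAt lam (d / γ s) s := by
  have hγ : γ s ≠ 0 := by rw [← he s hs.le]; exact exp_ne_zero _
  have h1 : HasDerivAt (fun x => lam s + log (γ x / γ s)) (d / γ s) s := by
    have h2 : HasDerivAt (fun x => γ x / γ s) (d / γ s) s := h.div_const _
    have h3 : HasDerivAt (fun x => log (γ x / γ s)) (d / γ s / (γ s / γ s)) s := by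
      apply HasDerivAt.clog_real h2
      rw [div_self hγ]
      exact one_mem_slitPlane
    rw [div_self hγ, div_one] at h3
    exact h3.const_add _
  apply h1.congr_of_eventuallyEq
  have hc : ContinuousAt lam s := hlam.continuousAt (Ici_mem_nhds hs)
  have h4 : ∀ᶠ x in 𝓝 s, ‖lam x - lam s‖ < 1 := by
    have : Tendsto (fun x => ‖lam x - lam s‖) (𝓝 s) (𝓝 0) := by
      have := (hc.tendsto.sub_const (lam s)).norm
      simpa using this
    exact this.eventually (gt_mem_nhds one_pos)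
  filter_upwards [h4, Ici_mem_nhds hs] with x hx hx0
  rw [← he x hx0, ← he s hs.le, ← exp_sub, log_exp]
  · ring
  · have := (abs_im_le_norm (lam x - lam s))
    have := neg_abs_le ((lam x - lam s).im)
    linarith [Real.pi_gt_three]
  · have := (abs_im_le_norm (lam x - lam s))
    have := le_abs_self ((lam x - lam s).im)
    linarith [Real.pi_gt_three]

theorem cone_of_arg {w : ℂ} {ψ : ℝ} (hψ : ψ < Real.pi / 2) (h : |w.arg| ≤ ψ) :
    |w.im| ≤ Real.tan ψ * w.re := by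
  have h0 : 0 ≤ ψ := (abs_nonneg _).trans h
  have hcψ : 0 < Real.cos ψ := Real.cos_pos_of_mem_Ioo ⟨by linarith, hψ⟩
  have hre : w.re = ‖w‖ * Real.cos w.arg := (norm_mul_cos_arg w).symm
  have him : w.im = ‖w‖ * Real.sin w.arg := (norm_mul_sin_arg w).symm
  have hca : 0 < Real.cos w.arg := by
    apply Real.cos_pos_of_mem_Ioo
    have := abs_le.mp h
    exact ⟨by linarith, by linarith⟩
  have htan : |Real.tan w.arg| ≤ Real.tan ψ := by
    rw [abs_le]
    have h2 := abs_le.mp h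
    constructor
    · rw [← Real.tan_neg]
      exact Real.strictMonoOn_tan.monotoneOn ⟨by linarith, by linarith⟩ ⟨by linarith, by linarith⟩
        h2.1
    · exact Real.strictMonoOn_tan.monotoneOn ⟨by linarith, by linarith⟩ ⟨by linarith, by linarith⟩
        h2.2
  have hs : Real.sin w.arg = Real.tan w.arg * Real.cos w.arg := (Real.tan_mul_cos hca.ne').symm
  rw [him, hre, hs, abs_mul, abs_mul, abs_of_nonneg (norm_nonneg w), abs_of_pos hca]
  have : 0 ≤ ‖w‖ * Real.cos w.arg := by positivity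
  nlinarith

theorem cone_lift {α : ℝ} (h1 : α < 1) {f : ℂ → ℂ} {γ lam : ℝ → ℂ}
    (h : IsSlitMap α f γ) (hlam : ContinuousOn lam (Ici 0))
    (he : ∀ x ∈ Ici (0 : ℝ), exp (lam x) = γ x) {s t : ℝ} (hs : 0 ≤ s) (hst : s ≤ t) :
    |(lam t - lam s).im| ≤ Real.tan (α * Real.pi / 2) * (lam t - lam s).re := by
  set K := Real.tan (α * Real.pi / 2) with hK
  have hψ : α * Real.pi / 2 < Real.pi / 2 := by nlinarith [Real.pi_pos]
  obtain ⟨T, hT, hTd⟩ := exists_finite_hasDerivAt h.arc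
  have hder : ∀ x > 0, x ∉ T → ∃ w : ℂ, |w.im| ≤ K * w.re ∧ HasDerivAt lam w x := by
    intro x hx hxT
    obtain ⟨d, hd, hdγ⟩ := hTd x hx hxT
    have hγ : γ x ≠ 0 := by rw [← he x hx.le]; exact exp_ne_zero _
    have ha := h.angle x hx.le _ (isTangentDir_of_hasDerivAt hd hdγ)
    rw [InnerProductGeometry.angle_smul_left_of_pos _ _ (by positivity), angle_eq_abs_arg hd hγ]
      at ha
    exact ⟨d / γ x, cone_of_arg hψ ha, hasDerivAt_log_lift hx hlam he hdγ⟩
  have hre : ∀ {w : ℂ} {x : ℝ}, HasDerivAt lam w x → HasDerivAt (fun y => (lam y).re) w.re x :=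
    fun {w x} hw => by
      exact (reCLM.hasFDerivAt.comp_hasDerivAt x hw)
  have him : ∀ {w : ℂ} {x : ℝ}, HasDerivAt lam w x → HasDerivAt (fun y => (lam y).im) w.im x :=
    fun {w x} hw => by
      exact (imCLM.hasFDerivAt.comp_hasDerivAt x hw)
  have hcre : ContinuousOn (fun y => (lam y).re) (Ici 0) := continuous_re.comp_continuousOn hlam
  have hcim : ContinuousOn (fun y => (lam y).im) (Ici 0) := continuous_im.comp_continuousOn hlam
  have m1 : MonotoneOn (fun y => K * (lam y).re + (lam y).im) (Ici 0) := by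
    apply le_of_hasDerivAt_nonneg ((hcre.const_smul K).add hcim) hT
    intro x hx hxT
    obtain ⟨w, hw, hwd⟩ := hder x hx hxT
    exact ⟨K * w.re + w.im, by linarith [(abs_le.mp hw).1], ((hre hwd).const_mul K).add (him hwd)⟩
  have m2 : MonotoneOn (fun y => K * (lam y).re - (lam y).im) (Ici 0) := by
    apply le_of_hasDerivAt_nonneg ((hcre.const_smul K).sub hcim) hT
    intro x hx hxT
    obtain ⟨w, hw, hwd⟩ := hder x hx hxT
    exact ⟨K * w.re - w.im, by linarith [(abs_le.mp hw).2], ((hre hwd).const_mul K).sub (him hwd)⟩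
  have h3 := m1 (mem_Ici.mpr hs) (mem_Ici.mpr (hs.trans hst)) hst
  have h4 := m2 (mem_Ici.mpr hs) (mem_Ici.mpr (hs.trans hst)) hst
  simp only at h3 h4
  rw [sub_im, sub_re, abs_le]
  constructor <;> linarith

theorem exists_graph {α : ℝ} (h0 : 0 < α) (h1 : α < 1) {f : ℂ → ℂ} {γ : ℝ → ℂ}
    (h : IsSlitMap α f γ) :
    ∃ (x₀ : ℝ) (G : ℝ → ℝ), (∀ x y, |G x - G y| ≤ Real.tan (α * Real.pi / 2) * |x - y|) ∧
      (∀ w : ℂ, w ∈ γ '' Ici 0 ↔ ∃ x ≥ x₀, w = exp (x + G x * I)) ∧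
      γ 0 = exp (x₀ + G x₀ * I) := by
  set K := Real.tan (α * Real.pi / 2) with hK
  have hKpos : 0 < K := Real.tan_pos_of_pos_of_lt_pi_div_two (by positivity)
    (by nlinarith [Real.pi_pos])
  have hγ0 : ∀ t ∈ Ici (0 : ℝ), γ t ≠ 0 := by
    intro t ht h2
    have h3 : γ t ∈ (f '' ball 0 1)ᶜ := by rw [h.compl]; exact mem_image_of_mem γ ht
    exact h3 ⟨0, mem_ball_self one_pos, by rw [h.mem.map_zero, h2]⟩
  obtain ⟨lam, hlam, -, he⟩ := exists_log_on_convex (convex_Ici (0 : ℝ)) self_mem_Ici h.arc.cont hγ0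
    (e := log (γ 0)) (exp_log (hγ0 0 self_mem_Ici))
  have hcone : ∀ {s t : ℝ}, 0 ≤ s → s ≤ t → |(lam t - lam s).im| ≤ K * (lam t - lam s).re :=
    fun hs hst => cone_lift h1 h hlam he hs hst
  have hmono : ∀ {s t : ℝ}, 0 ≤ s → s ≤ t → (lam s).re ≤ (lam t).re := by
    intro s t hs hst
    have h2 := (abs_nonneg _).trans (hcone hs hst)
    rw [sub_re] at h2
    have := nonneg_of_mul_nonneg_right h2 hKpos
    linarith
  have hstrict : ∀ {s t : ℝ}, 0 ≤ s → s < t → (lam s).re < (lam t).re := by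
    intro s t hs hst
    refine lt_of_le_of_ne (hmono hs hst.le) fun h2 => ?_
    have h3 := hcone hs hst.le
    have h4 : (lam t - lam s).re = 0 := by rw [sub_re, h2, sub_self]
    rw [h4, mul_zero] at h3
    have h5 : (lam t - lam s).im = 0 := abs_eq_zero.mp (le_antisymm h3 (abs_nonneg _))
    have h6 : lam t = lam s := sub_eq_zero.mp (Complex.ext h4 h5)
    have h7 : γ t = γ s := by rw [← he t (hs.trans hst.le), ← he s hs, h6]
    exact hst.ne' (h.arc.inj (mem_Ici.mpr (hs.trans hst.le)) hs h7)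
  let R : ℝ → ℝ := fun t => (lam (max t 0)).re + min t 0
  have hRmono : StrictMono R := by
    intro s t hst
    simp only [R]
    rcases le_or_gt 0 s with hs | hs
    · rw [max_eq_left hs, min_eq_right hs, max_eq_left (hs.trans hst.le),
        min_eq_right (hs.trans hst.le)]
      have := hstrict hs hst
      linarith
    · have h2 : (lam (max s 0)).re ≤ (lam (max t 0)).re :=
        hmono (le_max_right _ _) (max_le_max hst.le le_rfl)
      have h3 : min s 0 < min t 0 := by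
        rw [min_eq_left hs.le]
        exact lt_min hst hs
      linarith
  have hRcont : Continuous R := by
    have h2 : Continuous fun t : ℝ => lam (max t 0) :=
      hlam.comp_continuous (continuous_id.max continuous_const) fun t => mem_Ici.mpr (le_max_right t 0)
    exact (continuous_re.comp h2).add (continuous_id.min continuous_const)
  have hRtop : Tendsto R atTop atTop := by
    have h2 : Tendsto (fun t => ‖γ t‖) atTop atTop :=
      tendsto_norm_cocompact_atTop.comp h.arc.tends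
    have h3 : Tendsto (fun t => Real.log ‖γ t‖) atTop atTop := Real.tendsto_log_atTop.comp h2
    refine h3.congr' ?_
    filter_upwards [eventually_ge_atTop 0] with t ht
    simp only [R]
    rw [max_eq_left ht, min_eq_right ht, add_zero, ← he t ht, norm_exp, Real.log_exp]
  have hRbot : Tendsto R atBot atBot := by
    have h2 : Tendsto (fun t : ℝ => (lam 0).re + t) atBot atBot :=
      tendsto_atBot_add_const_left _ _ tendsto_id
    refine h2.congr' ?_
    filter_upwards [eventually_le_atBot 0] with t ht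
    simp only [R]
    rw [max_eq_right ht, min_eq_left ht]
  have hRsurj : Function.Surjective R := hRcont.surjective hRtop hRbot
  let e := StrictMono.orderIsoOfSurjective R hRmono hRsurj
  have heR : ∀ x, R (e.symm x) = x := fun x => e.apply_symm_apply x
  have hval : ∀ t ≥ 0, R t = (lam t).re := by
    intro t ht
    simp only [R]
    rw [max_eq_left ht, min_eq_right ht, add_zero]
  have hpt : ∀ t ≥ 0, exp (((lam t).re : ℂ) + ((lam (max (e.symm (lam t).re) 0)).im : ℂ) * I)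
      = γ t := by
    intro t ht
    have h2 : e.symm (lam t).re = t := by
      rw [← hval t ht]
      exact e.symm_apply_apply t
    rw [h2, max_eq_left ht, re_add_im, he t ht]
  refine ⟨(lam 0).re, fun x => (lam (max (e.symm x) 0)).im, ?_, ?_, (hpt 0 le_rfl).symm⟩
  · have key : ∀ x y, x ≤ y → |(lam (max (e.symm y) 0)).im - (lam (max (e.symm x) 0)).im|
        ≤ K * (y - x) := by
      intro x y hxy
      have hs : e.symm x ≤ e.symm y := e.symm.monotone hxy
      have h2 := hcone (le_max_right (e.symm x) 0) (max_le_max hs le_rfl)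
      rw [sub_im, sub_re] at h2
      refine h2.trans (mul_le_mul_of_nonneg_left ?_ hKpos.le)
      have h3 := heR x
      have h4 := heR y
      simp only [R] at h3 h4
      have h5 : min (e.symm x) 0 ≤ min (e.symm y) 0 := min_le_min hs le_rfl
      linarith
    intro x y
    rcases le_total x y with hxy | hxy
    · rw [abs_sub_comm, abs_sub_comm x y, abs_of_nonneg (sub_nonneg.mpr hxy)]
      exact key x y hxy
    · rw [abs_of_nonneg (sub_nonneg.mpr hxy)]
      exact key y x hxy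
  · intro w
    constructor
    · rintro ⟨t, ht, rfl⟩
      exact ⟨(lam t).re, hmono le_rfl ht, (hpt t ht).symm⟩
    · rintro ⟨x, hx, rfl⟩
      have ht : 0 ≤ e.symm x := by
        by_contra hcon
        push Not at hcon
        have h2 := hRmono hcon
        rw [heR, hval 0 le_rfl] at h2
        linarith
      have h2 : (lam (e.symm x)).re = x := by rw [← hval _ ht, heR]
      have h3 := hpt (e.symm x) ht
      rw [h2] at h3
      exact ⟨e.symm x, ht, h3.symm⟩

/-- A boundary value of an injective analytic function in the disc is not attained inside. -/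
theorem notMem_image_of_boundary {f : ℂ → ℂ} (hd : DifferentiableOn ℂ f (ball 0 1))
    (hi : InjOn f (ball 0 1)) {z w : ℂ} (hz : z ∈ sphere (0 : ℂ) 1)
    (hlim : Tendsto f (𝓝[ball 0 1] z) (𝓝 w)) : w ∉ f '' ball 0 1 := by
  rintro ⟨z₁, hz₁, rfl⟩
  have han : AnalyticAt ℂ f z₁ := hd.analyticAt (isOpen_ball.mem_nhds hz₁)
  rcases han.eventually_constant_or_nhds_le_map_nhds with h | h
  · have h1 : ∀ᶠ x in 𝓝[≠] z₁, f x = f z₁ := h.filter_mono nhdsWithin_le_nhds
    have h2 : ∀ᶠ x in 𝓝[≠] z₁, x ∈ ball (0 : ℂ) 1 :=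
      (isOpen_ball.eventually_mem hz₁).filter_mono nhdsWithin_le_nhds
    obtain ⟨x, hx1, hx2, hx3⟩ := (h1.and (h2.and self_mem_nhdsWithin)).exists
    exact hx3 (hi hx2 hz₁ hx1)
  · have hz1' : ‖z₁‖ < 1 := by simpa using hz₁
    obtain ⟨r, hr1, hr2⟩ := exists_between hz1'
    have h1 : f '' ball 0 r ∈ 𝓝 (f z₁) := by
      apply h
      exact image_mem_map (isOpen_ball.mem_nhds (by simpa using hr1))
    have h2 := hlim.eventually h1
    have h3 : ∀ᶠ x in 𝓝[ball 0 1] z, r < ‖x‖ := by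
      have : Tendsto (fun x : ℂ => ‖x‖) (𝓝[ball 0 1] z) (𝓝 ‖z‖) :=
        (continuous_norm.tendsto z).mono_left nhdsWithin_le_nhds
      rw [mem_sphere_zero_iff_norm.mp hz] at this
      exact this.eventually (lt_mem_nhds hr2)
    have hne : (𝓝[ball (0 : ℂ) 1] z).NeBot := by
      rw [← mem_closure_iff_nhdsWithin_neBot, closure_ball _ one_ne_zero]
      exact sphere_subset_closedBall hz
    obtain ⟨x, ⟨y, hy, hxy⟩, hx2, hx3⟩ := (h2.and (h3.and self_mem_nhdsWithin)).exists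
    have hy' : ‖y‖ < r := by simpa using hy
    have : y = x := hi (by simpa using hy'.trans hr2) hx3 hxy
    rw [this] at hy'
    exact lt_asymm hy' hx2

/-- A continuous logarithm of a differentiable function is differentiable. -/
theorem differentiableAt_of_exp {g h : ℂ → ℂ} {z : ℂ} (hg : ContinuousAt g z)
    (he : ∀ᶠ x in 𝓝 z, exp (g x) = h x) (hh : DifferentiableAt ℂ h z) :
    DifferentiableAt ℂ g z := by
  have hz : exp (g z) = h z := he.self_of_nhds
  have h0 : h z ≠ 0 := by rw [← hz]; exact exp_ne_zero _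
  have h1 : DifferentiableAt ℂ (fun x => g z + log (h x / h z)) z := by
    refine (DifferentiableAt.clog (hh.div_const _) ?_).const_add _
    rw [div_self h0]
    exact one_mem_slitPlane
  apply h1.congr_of_eventuallyEq
  have h4 : ∀ᶠ x in 𝓝 z, ‖g x - g z‖ < 1 := by
    have : Tendsto (fun x => ‖g x - g z‖) (𝓝 z) (𝓝 0) := by
      have := (hg.tendsto.sub_const (g z)).norm
      simpa using this
    exact this.eventually (gt_mem_nhds one_pos)
  filter_upwards [h4, he] with x hx hx0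
  rw [← hx0, ← hz, ← exp_sub, log_exp]
  · ring
  · have := (abs_im_le_norm (g x - g z))
    have := neg_abs_le ((g x - g z).im)
    linarith [Real.pi_gt_three]
  · have := (abs_im_le_norm (g x - g z))
    have := le_abs_self ((g x - g z).im)
    linarith [Real.pi_gt_three]

/-- The closed disc without `-1`. -/
def D : Set ℂ := closedBall 0 1 \ {-1}

theorem mem_D_iff {z : ℂ} : z ∈ D ↔ ‖z‖ ≤ 1 ∧ z ≠ -1 := by
  simp [D]

theorem D_eq : D = closedBall 0 1 ∩ {z : ℂ | -1 < z.re} := by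
  ext z
  rw [mem_D_iff, mem_inter_iff, mem_closedBall_zero_iff, mem_ofPred_eq]
  refine and_congr_right fun hz => ⟨fun h => ?_, fun h h2 => ?_⟩
  · by_contra hcon
    push Not at hcon
    apply h
    have h1 := abs_re_le_norm z
    have h2 : z.re = -1 := by
      have := neg_abs_le z.re
      linarith
    have h3 : ‖z‖ ^ 2 = z.re ^ 2 + z.im ^ 2 := by rw [← normSq_eq_norm_sq, normSq_apply]; ring
    have h4 : z.im = 0 := by
      have h5 : ‖z‖ ^ 2 ≤ 1 := by nlinarith [norm_nonneg z]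
      rw [h2] at h3
      nlinarith
    apply Complex.ext
    · simp [h2]
    · simp [h4]
  · rw [h2] at h
    simp at h

theorem convex_D : Convex ℝ D := by
  rw [D_eq]
  exact (convex_closedBall _ _).inter (convex_halfSpace_re_gt _)

theorem ball_subset_D : ball (0 : ℂ) 1 ⊆ D := by
  intro z hz
  have hz' : ‖z‖ < 1 := by simpa using hz
  rw [mem_D_iff]
  refine ⟨hz'.le, fun h => ?_⟩
  rw [h] at hz'
  simp at hz'

theorem one_add_mem_slitPlane {z : ℂ} (hz : z ∈ D) : 1 + z ∈ slitPlane := by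
  rw [D_eq] at hz
  left
  have : -1 < z.re := hz.2
  simp only [add_re, one_re]
  linarith

theorem exists_boundary {f : ℂ → ℂ} (hf : ClassS f) {ω : ℂ} {φ : ℝ} (hφ1 : -Real.pi < φ)
    (hφ2 : φ < Real.pi) (ht : HasTipAt f ω φ) (hω : ω ∉ f '' ball 0 1) :
    ∃ fb : ℂ → ℂ, ContinuousOn fb D ∧ (∀ z ∈ ball (0 : ℂ) 1, fb z = f z) ∧
      Tendsto (fun z => ‖fb z‖) (𝓝[D] (-1)) atTop ∧
      (∀ z ∈ sphere (0 : ℂ) 1, z ≠ -1 → fb z ∉ f '' ball 0 1) ∧ fb (exp (φ * I)) = ω ∧
      (∀ u : ℕ → ℂ, (∀ n, u n ∈ ball (0 : ℂ) 1) → Tendsto (fun n => f (u n)) atTop (𝓝 ω) →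
        Tendsto u atTop (𝓝 (exp (φ * I)))) := by
  obtain ⟨F, hF, hFf, hFi, hFω⟩ := ht
  have hfin : ∀ z ∈ D, ∃ w : ℂ, F z = w := by
    intro z hz
    rw [mem_D_iff] at hz
    have : F z ≠ OnePoint.infty := by
      rcases hz.1.lt_or_eq with h | h
      · rw [hFf z (by simpa using h)]
        exact OnePoint.coe_ne_infty _
      · rw [Ne, hFi z (by simpa using h)]
        exact hz.2
    obtain ⟨y, hy⟩ := OnePoint.ne_infty_iff_exists.mp this
    exact ⟨y, hy.symm⟩
  choose! fb hfb using hfin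
  have hDc : D ⊆ closedBall 0 1 := sdiff_subset
  have hcont : ContinuousOn fb D := by
    rw [OnePoint.isOpenEmbedding_coe.isInducing.continuousOn_iff]
    refine (hF.mono hDc).congr ?_
    intro z hz
    exact (hfb z hz).symm
  have hball : ∀ z ∈ ball (0 : ℂ) 1, fb z = f z := by
    intro z hz
    have h1 := hfb z (ball_subset_D hz)
    rw [hFf z hz] at h1
    exact (OnePoint.coe_injective h1).symm
  have hm1 : (-1 : ℂ) ∈ sphere (0 : ℂ) 1 := by simp
  have hlim1 : Tendsto (fun z => ‖fb z‖) (𝓝[D] (-1)) atTop := by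
    have h1 : Tendsto F (𝓝[D] (-1)) (𝓝 OnePoint.infty) := by
      have h2 := (hF (-1) (sphere_subset_closedBall hm1)).mono hDc
      have h3 : F (-1) = OnePoint.infty := (hFi _ hm1).mpr rfl
      rw [ContinuousWithinAt, h3] at h2
      exact h2
    have h2 : Tendsto (fun z => ((fb z : ℂ) : OnePoint ℂ)) (𝓝[D] (-1)) (𝓝 OnePoint.infty) := by
      refine h1.congr' ?_
      filter_upwards [self_mem_nhdsWithin] with z hz using hfb z hz
    have h3 : Tendsto fb (𝓝[D] (-1)) (cocompact ℂ) := by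
      rw [← coclosedCompact_eq_cocompact, ← OnePoint.comap_coe_nhds_infty, tendsto_comap_iff]
      exact h2
    exact tendsto_norm_cocompact_atTop.comp h3
  have hzφ : exp (φ * I) ∈ sphere (0 : ℂ) 1 := by
    rw [mem_sphere_zero_iff_norm]; exact norm_exp_ofReal_mul_I φ
  have hne : exp (φ * I) ≠ -1 := by
    intro h
    have h1 : log (exp (φ * I)) = φ * I := log_exp (by simpa using hφ1) (by simpa using hφ2.le)
    rw [h, log_neg_one] at h1
    have h2 := congrArg im h1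
    simp at h2
    exact hφ2.ne h2.symm
  refine ⟨fb, hcont, hball, hlim1, ?_, ?_, ?_⟩
  · intro z hz hz1
    have hzD : z ∈ D := by
      rw [mem_D_iff]
      exact ⟨(mem_sphere_zero_iff_norm.mp hz).le, hz1⟩
    apply notMem_image_of_boundary hf.diff hf.inj hz
    have h1 : Tendsto fb (𝓝[ball 0 1] z) (𝓝 (fb z)) := (hcont z hzD).mono ball_subset_D
    refine h1.congr' ?_
    filter_upwards [self_mem_nhdsWithin] with x hx using hball x hx
  · have h1 := hfb (exp (φ * I)) (by rw [mem_D_iff]; exact ⟨(mem_sphere_zero_iff_norm.mp hzφ).le, hne⟩)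
    rw [(hFω _ hzφ).mpr rfl] at h1
    exact (OnePoint.coe_injective h1).symm
  · intro u hu hlim
    apply (isCompact_closedBall (0 : ℂ) 1).tendsto_nhds_of_unique_mapClusterPt
      (Eventually.of_forall fun n => ball_subset_closedBall (hu n))
    intro x hx hcl
    obtain ⟨ψ, hψ, hψ2⟩ := MapClusterPt.tendsto_subseq hcl
    have h1 : Tendsto (fun n => F (u (ψ n))) atTop (𝓝 (F x)) := by
      have h2 : Tendsto (u ∘ ψ) atTop (𝓝[closedBall 0 1] x) := by
        rw [tendsto_nhdsWithin_iff]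
        exact ⟨hψ2, Eventually.of_forall fun n => ball_subset_closedBall (hu _)⟩
      exact (hF x hx).tendsto.comp h2
    have h2 : Tendsto (fun n => F (u (ψ n))) atTop (𝓝 (ω : OnePoint ℂ)) := by
      have h3 : Tendsto (fun n => ((f (u (ψ n)) : ℂ) : OnePoint ℂ)) atTop (𝓝 (ω : OnePoint ℂ)) :=
        (OnePoint.continuous_coe.tendsto ω).comp (hlim.comp hψ.tendsto_atTop)
      refine h3.congr fun n => ?_
      rw [hFf _ (hu _)]
    have h3 : F x = (ω : OnePoint ℂ) := tendsto_nhds_unique h1 h2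
    have h4 : x ∈ sphere (0 : ℂ) 1 := by
      rw [mem_sphere_zero_iff_norm]
      rw [mem_closedBall_zero_iff] at hx
      rcases hx.lt_or_eq with h | h
      · exfalso
        have hxb : x ∈ ball (0 : ℂ) 1 := by simpa using h
        rw [hFf x hxb] at h3
        exact hω ⟨x, hxb, OnePoint.coe_injective h3⟩
      · exact h
    exact (hFω x h4).mp h3

/-- A continuous logarithm of `fb z / z`. -/
theorem exists_log {f fb : ℂ → ℂ} (hf : ClassS f) (hc : ContinuousOn fb D)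
    (hfb : ∀ z ∈ ball (0 : ℂ) 1, fb z = f z)
    (hbd : ∀ z ∈ sphere (0 : ℂ) 1, z ≠ -1 → fb z ∉ f '' ball 0 1) :
    ∃ g : ℂ → ℂ, ContinuousOn g D ∧ DifferentiableOn ℂ g (ball 0 1) ∧
      ∀ z ∈ D, z * exp (g z) = fb z := by
  have h0b : (0 : ℂ) ∈ ball (0 : ℂ) 1 := mem_ball_self one_pos
  have hnb : ball (0 : ℂ) 1 ∈ 𝓝 (0 : ℂ) := isOpen_ball.mem_nhds h0b
  have hfb0 : fb =ᶠ[𝓝 0] f := by filter_upwards [hnb] with z hz using hfb z hz
  have hfd : DifferentiableAt ℂ f 0 := hf.diff.differentiableAt hnb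
  have hfbd : DifferentiableAt ℂ fb 0 := hfd.congr_of_eventuallyEq hfb0
  have hz0 : fb 0 = 0 := by rw [hfb 0 h0b, hf.map_zero]
  have hh : ContinuousOn (dslope fb 0) D :=
    (continuousOn_dslope (mem_of_superset hnb ball_subset_D)).mpr ⟨hc, hfbd⟩
  have hval : ∀ z, z * dslope fb 0 z = fb z := by
    intro z
    have := sub_smul_dslope fb 0 z
    rw [hz0, sub_zero, sub_zero, smul_eq_mul] at this
    exact this
  have hne : ∀ z ∈ D, dslope fb 0 z ≠ 0 := by
    intro z hz h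
    rcases eq_or_ne z 0 with rfl | hz1
    · rw [dslope_same, hfb0.deriv_eq, hf.deriv_zero] at h
      exact one_ne_zero h
    · have h1 : fb z = 0 := by rw [← hval z, h, mul_zero]
      have hz2 := mem_D_iff.mp hz
      rcases hz2.1.lt_or_eq with h2 | h2
      · have hzb : z ∈ ball (0 : ℂ) 1 := by simpa using h2
        rw [hfb z hzb, ← hf.map_zero] at h1
        exact hz1 (hf.inj hzb h0b h1)
      · apply hbd z (by simpa using h2) hz2.2
        rw [h1]
        exact ⟨0, h0b, hf.map_zero⟩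
  obtain ⟨g, hg1, -, hg2⟩ := exists_log_on_convex convex_D (ball_subset_D h0b) hh hne
    (e := log (dslope fb 0 0)) (exp_log (hne 0 (ball_subset_D h0b)))
  refine ⟨g, hg1, ?_, ?_⟩
  · have hd : DifferentiableOn ℂ (dslope fb 0) (ball 0 1) := by
      rw [differentiableOn_dslope hnb]
      exact hf.diff.congr hfb
    intro z hz
    apply DifferentiableAt.differentiableWithinAt
    apply differentiableAt_of_exp (hg1.continuousAt (mem_of_superset (isOpen_ball.mem_nhds hz)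
      ball_subset_D)) _ (hd.differentiableAt (isOpen_ball.mem_nhds hz))
    filter_upwards [isOpen_ball.mem_nhds hz] with x hx using hg2 x (ball_subset_D hx)
  · intro z hz
    rw [hg2 z hz, hval]

theorem exp_mul_I_mem {θ : ℝ} (h1 : -Real.pi < θ) (h2 : θ < Real.pi) :
    exp (θ * I) ∈ sphere (0 : ℂ) 1 ∧ exp (θ * I) ≠ -1 ∧ exp (θ * I) ∈ D := by
  have hz : exp (θ * I) ∈ sphere (0 : ℂ) 1 := by
    rw [mem_sphere_zero_iff_norm]; exact norm_exp_ofReal_mul_I θ
  have hne : exp (θ * I) ≠ -1 := by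
    intro h
    have h3 : log (exp (θ * I)) = θ * I := log_exp (by simpa using h1) (by simpa using h2.le)
    rw [h, log_neg_one] at h3
    have h4 := congrArg im h3
    simp at h4
    exact h2.ne h4.symm
  exact ⟨hz, hne, mem_D_iff.mpr ⟨(mem_sphere_zero_iff_norm.mp hz).le, hne⟩⟩

theorem circle_values {f fb g : ℂ → ℂ} {x₀ φ : ℝ} {G : ℝ → ℝ} (hGc : Continuous G)
    (hcompl : ∀ w : ℂ, w ∉ f '' ball 0 1 ↔ ∃ x ≥ x₀, w = exp (x + G x * I))
    (hg : ContinuousOn g D) (hge : ∀ z ∈ D, z * exp (g z) = fb z)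
    (hbd : ∀ z ∈ sphere (0 : ℂ) 1, z ≠ -1 → fb z ∉ f '' ball 0 1)
    (hφ : φ ∈ Ioo (-Real.pi) Real.pi) (htip : fb (exp (φ * I)) = exp (x₀ + G x₀ * I)) :
    (g (exp (φ * I))).re = x₀ ∧ ∀ θ ∈ Ioo (-Real.pi) Real.pi, x₀ ≤ (g (exp (θ * I))).re ∧
      (g (exp (θ * I))).im + θ - G (g (exp (θ * I))).re = (g (exp (φ * I))).im + φ - G x₀ := by
  have hexp : ∀ θ ∈ Ioo (-Real.pi) Real.pi,
      exp (θ * I + g (exp (θ * I))) = fb (exp (θ * I)) := by
    intro θ hθ
    rw [exp_add, hge _ (exp_mul_I_mem hθ.1 hθ.2).2.2]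
  have hre : ∀ θ : ℝ, (θ * I + g (exp (θ * I))).re = (g (exp (θ * I))).re := by
    intro θ; simp
  have key : ∀ θ ∈ Ioo (-Real.pi) Real.pi, x₀ ≤ (g (exp (θ * I))).re ∧
      fb (exp (θ * I)) = exp ((g (exp (θ * I))).re + G (g (exp (θ * I))).re * I) := by
    intro θ hθ
    obtain ⟨hs, hne, hD⟩ := exp_mul_I_mem hθ.1 hθ.2
    obtain ⟨x, hx, hxe⟩ := (hcompl _).mp (hbd _ hs hne)
    have h1 := hexp θ hθ
    rw [hxe] at h1
    have h2 := congrArg norm h1
    rw [norm_exp, norm_exp, hre] at h2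
    have h3 := Real.exp_injective h2
    have h4 : ((x : ℂ) + G x * I).re = x := by simp
    rw [h4] at h3
    rw [h3]
    exact ⟨hx, hxe⟩
  have htip' : (g (exp (φ * I))).re = x₀ := by
    have h1 := hexp φ hφ
    rw [htip] at h1
    have h2 := congrArg norm h1
    rw [norm_exp, norm_exp, hre] at h2
    have h3 := Real.exp_injective h2
    rw [h3]; simp
  refine ⟨htip', ?_⟩
  have hcg : ContinuousOn (fun θ : ℝ => g (exp (θ * I))) (Ioo (-Real.pi) Real.pi) := by
    apply hg.comp (Continuous.continuousOn (by fun_prop))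
    intro θ hθ
    exact (exp_mul_I_mem hθ.1 hθ.2).2.2
  have hcre : ContinuousOn (fun θ : ℝ => (g (exp (θ * I))).re) (Ioo (-Real.pi) Real.pi) :=
    continuous_re.comp_continuousOn hcg
  have hcu : ContinuousOn (fun θ : ℝ => (θ * I + g (exp (θ * I))) -
      ((g (exp (θ * I))).re + G (g (exp (θ * I))).re * I)) (Ioo (-Real.pi) Real.pi) := by
    apply ContinuousOn.sub
    · exact (Continuous.continuousOn (by fun_prop)).add hcg
    · apply ContinuousOn.add
      · exact continuous_ofReal.comp_continuousOn hcre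
      · exact (continuous_ofReal.comp_continuousOn (hGc.comp_continuousOn hcre)).mul
          continuousOn_const
  intro θ hθ
  refine ⟨(key θ hθ).1, ?_⟩
  have h1 := eq_of_exp_eq_one isPreconnected_Ioo hcu (by
    intro x hx
    rw [exp_sub, hexp x hx, ← (key x hx).2]
    rw [div_self]
    rw [(key x hx).2]; exact exp_ne_zero _) hθ hφ
  have h2 := congrArg im h1
  rw [htip'] at h2
  simp at h2
  linarith

theorem exists_two_pi_mul_int_mem {a b : ℝ} (h : a + 2 * Real.pi ≤ b) :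
    ∃ k : ℤ, a ≤ 2 * Real.pi * k ∧ 2 * Real.pi * k ≤ b := by
  have hp := Real.two_pi_pos
  refine ⟨⌈a / (2 * Real.pi)⌉, ?_, ?_⟩
  · have := Int.le_ceil (a / (2 * Real.pi))
    rw [div_le_iff₀ hp] at this
    linarith
  · have := (Int.ceil_lt_add_one (a / (2 * Real.pi))).le
    have h2 : (⌈a / (2 * Real.pi)⌉ : ℝ) * (2 * Real.pi) ≤ (a / (2 * Real.pi) + 1) * (2 * Real.pi) :=
      mul_le_mul_of_nonneg_right this hp.le
    rw [add_mul, div_mul_cancel₀ _ hp.ne'] at h2
    linarith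

theorem bounded_near {f fb g : ℂ → ℂ} {x₀ K : ℝ} {G : ℝ → ℝ} (hK : 0 ≤ K) (hGc : Continuous G)
    (hG : ∀ x y, |G x - G y| ≤ K * |x - y|)
    (hcompl : ∀ w : ℂ, w ∉ f '' ball 0 1 ↔ ∃ x ≥ x₀, w = exp (x + G x * I))
    (hfb : ∀ z ∈ ball (0 : ℂ) 1, fb z = f z)
    (hlim : Tendsto (fun z => ‖fb z‖) (𝓝[D] (-1)) atTop)
    (hg : ContinuousOn g D) (hge : ∀ z ∈ D, z * exp (g z) = fb z) :
    ∃ δ > 0, ∃ M : ℝ, ∀ z ∈ ball (0 : ℂ) 1, ‖z + 1‖ < δ →
      -M ≤ K * (g z).re + (g z).im ∧ -M ≤ K * (g z).re - (g z).im := by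
  -- a neighbourhood on which `|f|` is large
  have h1 : ∀ᶠ z in 𝓝[D] (-1), Real.exp x₀ < ‖fb z‖ := hlim.eventually (eventually_gt_atTop _)
  obtain ⟨δ₁, hδ₁, h2⟩ := Metric.mem_nhdsWithin_iff.mp h1
  set δ := min δ₁ 1 with hδ
  have hδpos : 0 < δ := lt_min hδ₁ one_pos
  set N : Set ℂ := ball 0 1 ∩ ball (-1) δ with hN
  have hNc : IsPreconnected N := ((convex_ball _ _).inter (convex_ball _ _)).isPreconnected
  have hNb : N ⊆ ball 0 1 := inter_subset_left
  have hNlarge : ∀ z ∈ N, Real.exp x₀ < ‖f z‖ := by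
    intro z hz
    rw [← hfb z hz.1]
    exact h2 ⟨ball_subset_ball (min_le_left _ _) hz.2, ball_subset_D hz.1⟩
  have hNslit : ∀ z ∈ N, 0 < (-z).re := by
    intro z hz
    have h3 : ‖z + 1‖ < 1 := by
      have := hz.2
      rw [mem_ball, dist_eq_norm, sub_neg_eq_add] at this
      exact this.trans_le (min_le_right _ _)
    have h4 := (abs_le.mp ((abs_re_le_norm (z + 1)))).2
    simp only [add_re, one_re] at h4
    rw [neg_re]
    linarith
  let E : ℂ → ℂ := fun z => log (-z) + Real.pi * I + g z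
  have hEc : ContinuousOn E N := by
    apply ContinuousOn.add
    · apply ContinuousOn.add _ continuousOn_const
      exact ContinuousOn.clog continuous_neg.continuousOn fun z hz => Or.inl (hNslit z hz)
    · exact hg.mono (hNb.trans ball_subset_D)
  have hEe : ∀ z ∈ N, exp (E z) = f z := by
    intro z hz
    have hz0 : -z ≠ 0 := by
      intro h
      have := hNslit z hz
      rw [h] at this
      simp at this
    simp only [E]
    rw [exp_add, exp_add, exp_log hz0, exp_pi_mul_I, ← hfb z hz.1, ← hge z (ball_subset_D hz.1)]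
    ring
  have hEre : ∀ z ∈ N, x₀ < (E z).re := by
    intro z hz
    have h3 := hNlarge z hz
    rw [← hEe z hz, norm_exp] at h3
    exact Real.exp_lt_exp.mp h3
  let y : ℂ → ℝ := fun z => (E z).im - G (E z).re
  have hyc : ContinuousOn y N :=
    (continuous_im.comp_continuousOn hEc).sub
      (hGc.comp_continuousOn (continuous_re.comp_continuousOn hEc))
  have hynot : ∀ z ∈ N, ∀ k : ℤ, y z ≠ 2 * Real.pi * k := by
    intro z hz k hk
    have h3 : f z ∉ f '' ball 0 1 := by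
      rw [hcompl]
      refine ⟨(E z).re, (hEre z hz).le, ?_⟩
      rw [← hEe z hz, exp_eq_exp_iff_exists_int]
      refine ⟨k, ?_⟩
      have h4 : (E z).im = G (E z).re + 2 * Real.pi * k := by
        simp only [y] at hk
        linarith
      apply Complex.ext
      · simp
      · simp
        rw [h4]; ring
    exact h3 (mem_image_of_mem f hz.1)
  -- `y` is bounded on `N`
  obtain ⟨Y, hY⟩ : ∃ Y : ℝ, ∀ z ∈ N, |y z| ≤ Y := by
    rcases N.eq_empty_or_nonempty with hNe | ⟨z₁, hz₁⟩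
    · exact ⟨0, fun z hz => by rw [hNe] at hz; exact absurd hz (notMem_empty z)⟩
    have hint : ∀ z ∈ N, ∀ z' ∈ N, y z' < y z + 2 * Real.pi := by
      intro z hz z' hz'
      by_contra hcon
      push Not at hcon
      obtain ⟨k, hk1, hk2⟩ := exists_two_pi_mul_int_mem hcon
      obtain ⟨w, hw, hwk⟩ := hNc.intermediate_value hz hz' hyc ⟨hk1, hk2⟩
      exact hynot w hw k hwk
    refine ⟨|y z₁| + 2 * Real.pi, fun z hz => ?_⟩
    have h3 := hint z hz z₁ hz₁
    have h4 := hint z₁ hz₁ z hz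
    rw [abs_le]
    have h5 := neg_abs_le (y z₁)
    have h6 := le_abs_self (y z₁)
    constructor <;> linarith
  refine ⟨δ, hδpos, Y + 2 * Real.pi + |K * x₀| + |G x₀|, ?_⟩
  intro z hz hzδ
  have hzN : z ∈ N := ⟨hz, by rw [mem_ball, dist_eq_norm, sub_neg_eq_add]; exact hzδ⟩
  have hz1 : ‖z‖ < 1 := by simpa using hz
  have hgre : (E z).re ≤ (g z).re := by
    simp only [E, add_re, log_re]
    have h3 : Real.log ‖-z‖ ≤ 0 := by
      rw [norm_neg]
      exact Real.log_nonpos (norm_nonneg _) hz1.le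
    have h4 : ((Real.pi : ℂ) * I).re = 0 := by simp
    rw [h4]
    linarith
  have hgim : (g z).im = (E z).im - arg (-z) - Real.pi := by
    simp only [E, add_im, log_im]
    have h4 : ((Real.pi : ℂ) * I).im = Real.pi := by simp
    rw [h4]
    ring
  have harg1 := neg_pi_lt_arg (-z)
  have harg2 := arg_le_pi (-z)
  have hy1 := abs_le.mp (hY z hzN)
  have hG1 := abs_le.mp (hG (E z).re x₀)
  rw [abs_of_nonneg (sub_nonneg.mpr (hEre z hzN).le)] at hG1
  have hyval : y z = (E z).im - G (E z).re := rfl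
  have h5 : K * (E z).re ≤ K * (g z).re := mul_le_mul_of_nonneg_left hgre hK
  have h6 := neg_abs_le (K * x₀)
  have h7 := neg_abs_le (G x₀)
  have h8 := le_abs_self (G x₀)
  rw [hgim]
  constructor <;> nlinarith

theorem norm_half_le {z : ℂ} (hz : ‖z‖ ≤ 1) : ‖(1 + z) / 2‖ ≤ 1 := by
  rw [norm_div]
  have h1 : ‖(1 : ℂ) + z‖ ≤ 2 := by
    refine (norm_add_le _ _).trans ?_
    rw [norm_one]; linarith
  have h2 : ‖(2 : ℂ)‖ = 2 := by simp
  rw [h2]
  linarith

theorem half_mem_slitPlane {z : ℂ} (hz : z ∈ D) : (1 + z) / 2 ∈ slitPlane := by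
  rw [D_eq] at hz
  left
  have h : -1 < z.re := hz.2
  have : ((1 + z) / 2).re = (1 + z.re) / 2 := by
    rw [show (1 + z) / 2 = (1 + z) / ((2 : ℝ) : ℂ) by simp, div_ofReal_re]
    simp
  rw [this]
  linarith

/-- Maximum principle with one exceptional boundary point. -/
theorem max_principle {A : ℂ → ℂ} (hA : ContinuousOn A D) (hd : DifferentiableOn ℂ A (ball 0 1))
    (hb : ∀ z ∈ sphere (0 : ℂ) 1, z ≠ -1 → 0 ≤ (A z).re) {δ M : ℝ} (hδ : 0 < δ)
    (hM : ∀ z ∈ ball (0 : ℂ) 1, ‖z + 1‖ < δ → -M ≤ (A z).re) :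
    ∀ z ∈ ball (0 : ℂ) 1, 0 ≤ (A z).re := by
  have hDne : ∀ z ∈ closedBall (0 : ℂ) 1, z ≠ -1 → z ∈ D := fun z hz h => ⟨hz, h⟩
  have key : ∀ ε : ℝ, 0 < ε → ∀ z ∈ ball (0 : ℂ) 1,
      Real.exp (-(A z).re) * ‖(1 + z) / 2‖ ^ ε ≤ 1 := by
    intro ε hε
    let H : ℂ → ℂ := fun z => exp (-A z) * ((1 + z) / 2) ^ (ε : ℂ)
    have hHn : ∀ z, ‖H z‖ = Real.exp (-(A z).re) * ‖(1 + z) / 2‖ ^ ε := by
      intro z
      simp only [H]
      rw [norm_mul, norm_exp, neg_re, norm_cpow_real]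
    have hHD : ContinuousOn H D := by
      apply ContinuousOn.mul hA.neg.cexp
      refine ContinuousOn.cpow (Continuous.continuousOn (by fun_prop)) continuousOn_const ?_
      intro z hz
      exact half_mem_slitPlane hz
    have hDopen : ∀ z ∈ D, 𝓝[closedBall 0 1] z ≤ 𝓝[D] z := by
      intro z hz
      have h1 : ({-1}ᶜ : Set ℂ) ∈ 𝓝 z := isOpen_compl_singleton.mem_nhds (mem_D_iff.mp hz).2
      have h2 : D = closedBall 0 1 ∩ {-1}ᶜ := rfl
      rw [h2, nhdsWithin_inter_of_mem' (mem_nhdsWithin_of_mem_nhds h1)]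
    have hneg1 : ContinuousWithinAt H (closedBall 0 1) (-1) := by
      have hH1 : H (-1) = 0 := by
        simp only [H]
        have : ((1 : ℂ) + -1) / 2 = 0 := by simp
        rw [this, zero_cpow (by exact_mod_cast hε.ne'), mul_zero]
      rw [ContinuousWithinAt, hH1]
      apply squeeze_zero_norm' (a := fun z => Real.exp (max M 0) * ‖(1 + z) / 2‖ ^ ε)
      · have h1 : ∀ᶠ z in 𝓝[closedBall 0 1] (-1 : ℂ), z ∈ ball (-1 : ℂ) δ :=
          mem_nhdsWithin_of_mem_nhds (ball_mem_nhds _ hδ)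
        filter_upwards [h1, self_mem_nhdsWithin] with z hz hz2
        rw [hHn]
        rcases eq_or_ne z (-1) with rfl | hne
        · have : ((1 : ℂ) + -1) / 2 = 0 := by simp
          rw [this, norm_zero, Real.zero_rpow hε.ne', mul_zero, mul_zero]
        · apply mul_le_mul_of_nonneg_right _ (by positivity)
          apply Real.exp_le_exp.mpr
          rw [mem_closedBall_zero_iff] at hz2
          rcases hz2.lt_or_eq with h | h
          · have := hM z (by simpa using h) (by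
              rw [mem_ball, dist_eq_norm, sub_neg_eq_add] at hz; exact hz)
            have := le_max_left M 0
            linarith
          · have := hb z (by simpa using h) hne
            have := le_max_right M 0
            linarith
      · have h2 : Tendsto (fun z : ℂ => Real.exp (max M 0) * ‖(1 + z) / 2‖ ^ ε) (𝓝 (-1))
            (𝓝 (Real.exp (max M 0) * ‖(1 + (-1 : ℂ)) / 2‖ ^ ε)) := by
          apply Tendsto.const_mul
          apply Tendsto.rpow_const _ (Or.inr hε.le)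
          exact Continuous.tendsto (by fun_prop) _
        have h3 : Real.exp (max M 0) * ‖(1 + (-1 : ℂ)) / 2‖ ^ ε = 0 := by
          have : ((1 : ℂ) + -1) / 2 = 0 := by simp
          rw [this, norm_zero, Real.zero_rpow hε.ne', mul_zero]
        rw [h3] at h2
        exact h2.mono_left nhdsWithin_le_nhds
    have hcont : ContinuousOn H (closedBall 0 1) := by
      intro z hz
      rcases eq_or_ne z (-1) with rfl | hne
      · exact hneg1
      · exact (hHD z (hDne z hz hne)).mono_left (hDopen z (hDne z hz hne))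
    have hdiff : DifferentiableOn ℂ H (ball 0 1) := by
      intro z hz
      have hz1 : DifferentiableAt ℂ A z := hd.differentiableAt (isOpen_ball.mem_nhds hz)
      apply DifferentiableAt.differentiableWithinAt
      apply DifferentiableAt.mul hz1.neg.cexp
      apply DifferentiableAt.cpow (by fun_prop) (by fun_prop)
      exact half_mem_slitPlane (ball_subset_D hz)
    have hdc : DiffContOnCl ℂ H (ball 0 1) := by
      refine ⟨hdiff, ?_⟩
      rwa [closure_ball _ one_ne_zero]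
    intro z hz
    rw [← hHn]
    apply norm_le_of_forall_mem_frontier_norm_le isBounded_ball hdc _ (subset_closure hz)
    intro x hx
    rw [frontier_ball _ one_ne_zero] at hx
    rw [hHn]
    have hx1 : ‖x‖ = 1 := by simpa using hx
    rcases eq_or_ne x (-1) with rfl | hne
    · have : ((1 : ℂ) + -1) / 2 = 0 := by simp
      rw [this, norm_zero, Real.zero_rpow hε.ne', mul_zero]
      exact zero_le_one
    · have h1 : Real.exp (-(A x).re) ≤ 1 := by
        rw [Real.exp_le_one_iff]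
        have := hb x hx hne
        linarith
      have h2 : ‖(1 + x) / 2‖ ^ ε ≤ 1 :=
        Real.rpow_le_one (norm_nonneg _) (norm_half_le hx1.le) hε.le
      calc Real.exp (-(A x).re) * ‖(1 + x) / 2‖ ^ ε ≤ 1 * 1 :=
            mul_le_mul h1 h2 (by positivity) zero_le_one
        _ = 1 := one_mul 1
  intro z hz
  have hpos : 0 < ‖(1 + z) / 2‖ :=
    norm_pos_iff.mpr (slitPlane_ne_zero (half_mem_slitPlane (ball_subset_D hz)))
  have h1 : Tendsto (fun ε : ℝ => Real.exp (-(A z).re) * ‖(1 + z) / 2‖ ^ ε) (𝓝[>] 0)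
      (𝓝 (Real.exp (-(A z).re) * ‖(1 + z) / 2‖ ^ (0 : ℝ))) := by
    apply Tendsto.const_mul
    apply Tendsto.mono_left _ nhdsWithin_le_nhds
    exact (Real.continuousAt_const_rpow hpos.ne').tendsto
  have h2 : Real.exp (-(A z).re) * ‖(1 + z) / 2‖ ^ (0 : ℝ) ≤ 1 := by
    apply le_of_tendsto h1
    filter_upwards [self_mem_nhdsWithin] with ε hε using key ε hε z hz
  rw [Real.rpow_zero, mul_one, Real.exp_le_one_iff] at h2
  linarith

theorem one_add_exp_mul_I (θ : ℝ) :
    1 + exp (θ * I) = ((2 * Real.cos (θ / 2) : ℝ) : ℂ) * exp ((θ / 2 : ℝ) * I) := by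
  have h1 : exp (θ * I) = exp ((θ / 2 : ℝ) * I) * exp ((θ / 2 : ℝ) * I) := by
    rw [← exp_add]; congr 1; push_cast; ring
  have h2 : (1 : ℂ) = exp (-((θ / 2 : ℝ) * I)) * exp ((θ / 2 : ℝ) * I) := by
    rw [← exp_add]; simp
  rw [h1]
  nth_rewrite 1 [h2]
  rw [← add_mul]
  congr 1
  push_cast
  rw [Complex.cos]
  ring_nf

theorem arg_one_add_exp {θ : ℝ} (h1 : -Real.pi < θ) (h2 : θ < Real.pi) :
    arg (1 + exp (θ * I)) = θ / 2 := by
  have hc : 0 < Real.cos (θ / 2) := Real.cos_pos_of_mem_Ioo ⟨by linarith, by linarith⟩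
  rw [one_add_exp_mul_I, arg_real_mul _ (by positivity), exp_mul_I]
  exact arg_cos_add_sin_mul_I ⟨by linarith [Real.pi_pos], by linarith [Real.pi_pos]⟩

theorem im_div_sq {z : ℂ} (hz : 1 + z ≠ 0) :
    (z / (1 + z) ^ 2).im = (1 - ‖z‖ ^ 2) * z.im / ‖1 + z‖ ^ 4 := by
  have h1 : z / (1 + z) ^ 2 = z * (starRingEnd ℂ (1 + z)) ^ 2 / ((‖1 + z‖ ^ 4 : ℝ) : ℂ) := by
    have h2 : ((‖1 + z‖ ^ 4 : ℝ) : ℂ) = (1 + z) ^ 2 * (starRingEnd ℂ (1 + z)) ^ 2 := by
      rw [← mul_pow, mul_conj, normSq_eq_norm_sq]; push_cast; ring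
    have h3 : (starRingEnd ℂ (1 + z)) ≠ 0 := by
      intro h
      exact hz ((map_eq_zero _).mp h)
    rw [h2]
    field_simp
  rw [h1, div_ofReal_im]
  congr 1
  have h4 : ‖z‖ ^ 2 = z.re * z.re + z.im * z.im := by rw [← normSq_eq_norm_sq, normSq_apply]
  rw [h4]
  simp [pow_two, mul_re, mul_im]
  ring

theorem key_ineq {z : ℂ} {K : ℝ} (hK : 0 ≤ K) (hz : ‖z‖ < 1) (hz0 : z ≠ 0)
    (h : |2 * arg (1 + z) - arg z| ≤ K * (-Real.log ‖z‖)) :
    (1 + ‖z‖) * |z.im| ≤ K * ‖1 + z‖ ^ 2 := by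
  have h1z : 1 + z ≠ 0 := by
    intro h1
    have : z = -1 := by linear_combination h1
    rw [this] at hz
    simp at hz
  have hr : 0 < ‖z‖ := norm_pos_iff.mpr hz0
  have hR : 0 < ‖1 + z‖ := norm_pos_iff.mpr h1z
  set q : ℂ := log z - 2 * log (1 + z) with hq
  have hexp : exp q = z / (1 + z) ^ 2 := by
    rw [hq, exp_sub, exp_log hz0]
    congr 1
    rw [two_mul, exp_add, exp_log h1z, pow_two]
  have hqim : q.im = arg z - 2 * arg (1 + z) := by
    rw [hq]; simp [log_im]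
  have hnorm : Real.exp q.re = ‖z‖ / ‖1 + z‖ ^ 2 := by
    rw [← norm_exp, hexp, norm_div, norm_pow]
  have him : (1 - ‖z‖ ^ 2) * z.im / ‖1 + z‖ ^ 4 = ‖z‖ / ‖1 + z‖ ^ 2 * Real.sin q.im := by
    rw [← im_div_sq h1z, ← hexp, exp_im, hnorm]
  have hlog : -Real.log ‖z‖ ≤ ‖z‖⁻¹ - 1 := by
    have := Real.one_sub_inv_le_log_of_pos hr
    linarith
  have hsin : |Real.sin q.im| ≤ K * (‖z‖⁻¹ - 1) := by
    calc |Real.sin q.im| ≤ |q.im| := Real.abs_sin_le_abs
      _ = |2 * arg (1 + z) - arg z| := by rw [hqim, abs_sub_comm]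
      _ ≤ K * (-Real.log ‖z‖) := h
      _ ≤ K * (‖z‖⁻¹ - 1) := mul_le_mul_of_nonneg_left hlog hK
  have h2 : (1 - ‖z‖ ^ 2) * |z.im| / ‖1 + z‖ ^ 4 = ‖z‖ / ‖1 + z‖ ^ 2 * |Real.sin q.im| := by
    have h3 := congrArg abs him
    rw [abs_mul, abs_div, abs_mul, abs_of_pos (by nlinarith : 0 < 1 - ‖z‖ ^ 2),
      abs_of_pos (by positivity : 0 < ‖1 + z‖ ^ 4),
      abs_of_pos (by positivity : 0 < ‖z‖ / ‖1 + z‖ ^ 2)] at h3
    exact h3
  have h4 : (1 - ‖z‖ ^ 2) * |z.im| / ‖1 + z‖ ^ 4 ≤ ‖z‖ / ‖1 + z‖ ^ 2 * (K * (‖z‖⁻¹ - 1)) := by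
    rw [h2]
    exact mul_le_mul_of_nonneg_left hsin (by positivity)
  have h5 : ‖z‖ / ‖1 + z‖ ^ 2 * (K * (‖z‖⁻¹ - 1)) = K * (1 - ‖z‖) / ‖1 + z‖ ^ 2 := by
    field_simp
  rw [h5, div_le_div_iff₀ (by positivity) (by positivity)] at h4
  have h6 : (1 - ‖z‖) * (((1 + ‖z‖) * |z.im|) * ‖1 + z‖ ^ 2) ≤
      (1 - ‖z‖) * ((K * ‖1 + z‖ ^ 2) * ‖1 + z‖ ^ 2) := by
    calc _ = (1 - ‖z‖ ^ 2) * |z.im| * ‖1 + z‖ ^ 2 := by ring
      _ ≤ K * (1 - ‖z‖) * ‖1 + z‖ ^ 4 := h4
      _ = _ := by ring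
  have h7 := le_of_mul_le_mul_left h6 (by linarith)
  exact le_of_mul_le_mul_right h7 (by positivity)

theorem tan_half_le {K φ : ℝ} (hφ1 : -Real.pi < φ) (hφ2 : φ < Real.pi)
    (h : (1 + ‖exp (φ * I)‖) * |(exp (φ * I)).im| ≤ K * ‖1 + exp (φ * I)‖ ^ 2) :
    |Real.tan (φ / 2)| ≤ K := by
  have hc : 0 < Real.cos (φ / 2) := Real.cos_pos_of_mem_Ioo ⟨by linarith, by linarith⟩
  rw [norm_exp_ofReal_mul_I, exp_ofReal_mul_I_im, one_add_exp_mul_I, norm_mul,
    norm_exp_ofReal_mul_I, norm_real, Real.norm_of_nonneg (by positivity)] at h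
  have h1 : Real.sin φ = 2 * Real.sin (φ / 2) * Real.cos (φ / 2) := by
    rw [← Real.sin_two_mul]; congr 1; ring
  rw [h1, abs_mul, abs_mul, abs_of_pos hc, abs_two] at h
  rw [Real.tan_eq_sin_div_cos, abs_div, abs_of_pos hc, div_le_iff₀ hc]
  have h2 : (4 * Real.cos (φ / 2)) * |Real.sin (φ / 2)| ≤
      (4 * Real.cos (φ / 2)) * (K * Real.cos (φ / 2)) := by nlinarith
  exact le_of_mul_le_mul_left h2 (by positivity)

theorem disc_ineq {f fb g : ℂ → ℂ} {x₀ K φ : ℝ} {G : ℝ → ℝ} (hK : 0 ≤ K) (hGc : Continuous G)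
    (hG : ∀ x y, |G x - G y| ≤ K * |x - y|)
    (hcompl : ∀ w : ℂ, w ∉ f '' ball 0 1 ↔ ∃ x ≥ x₀, w = exp (x + G x * I))
    (hfb : ∀ z ∈ ball (0 : ℂ) 1, fb z = f z)
    (hlim : Tendsto (fun z => ‖fb z‖) (𝓝[D] (-1)) atTop)
    (hbd : ∀ z ∈ sphere (0 : ℂ) 1, z ≠ -1 → fb z ∉ f '' ball 0 1)
    (hg : ContinuousOn g D) (hgd : DifferentiableOn ℂ g (ball 0 1))
    (hge : ∀ z ∈ D, z * exp (g z) = fb z)
    (hφ : φ ∈ Ioo (-Real.pi) Real.pi) (htip : fb (exp (φ * I)) = exp (x₀ + G x₀ * I)) (s : ℝ)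
    (hs : s = 1 ∨ s = -1) :
    ∀ z ∈ ball (0 : ℂ) 1, 0 ≤ K * ((g z).re - (g (exp (φ * I))).re) +
      s * ((g z).im - (g (exp (φ * I))).im + 2 * arg (1 + z) - φ) := by
  obtain ⟨hre0, hcirc⟩ := circle_values hGc hcompl hg hge hbd hφ htip
  set z₀ := exp (φ * I) with hz₀
  let A : ℂ → ℂ := fun z => K * (g z - g z₀) - s * I * (g z - g z₀ + 2 * log (1 + z) - φ * I)
  have hAre : ∀ z, (A z).re = K * ((g z).re - (g z₀).re) +
      s * ((g z).im - (g z₀).im + 2 * arg (1 + z) - φ) := by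
    intro z
    simp [A, log_im]
  have hlogc : ContinuousOn (fun z : ℂ => log (1 + z)) D :=
    ContinuousOn.clog (Continuous.continuousOn (by fun_prop)) fun z hz => one_add_mem_slitPlane hz
  have hAc : ContinuousOn A D := by
    apply ContinuousOn.sub
    · exact continuousOn_const.mul (hg.sub continuousOn_const)
    · apply continuousOn_const.mul
      exact ((hg.sub continuousOn_const).add (continuousOn_const.mul hlogc)).sub continuousOn_const
  have hAd : DifferentiableOn ℂ A (ball 0 1) := by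
    intro z hz
    have h1 : DifferentiableAt ℂ g z := hgd.differentiableAt (isOpen_ball.mem_nhds hz)
    have h2 : DifferentiableAt ℂ (fun z : ℂ => log (1 + z)) z :=
      DifferentiableAt.clog (by fun_prop) (one_add_mem_slitPlane (ball_subset_D hz))
    apply DifferentiableAt.differentiableWithinAt
    apply DifferentiableAt.sub
    · exact (h1.sub_const _).const_mul _
    · exact (((h1.sub_const _).add (h2.const_mul _)).sub_const _).const_mul _
  have hAb : ∀ z ∈ sphere (0 : ℂ) 1, z ≠ -1 → 0 ≤ (A z).re := by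
    intro z hz hz1
    have hzn : ‖z‖ = 1 := by simpa using hz
    have hza : z = exp (arg z * I) := by
      have := norm_mul_exp_arg_mul_I z
      rw [hzn] at this
      simpa using this.symm
    have hargne : arg z ≠ Real.pi := by
      intro h
      rw [h, exp_pi_mul_I] at hza
      exact hz1 hza
    have harg2 : arg z < Real.pi := lt_of_le_of_ne (arg_le_pi z) hargne
    have harg1 := neg_pi_lt_arg z
    obtain ⟨h1, h2⟩ := hcirc (arg z) ⟨harg1, harg2⟩
    have h3 : 2 * arg (1 + z) = arg z := by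
      have := arg_one_add_exp harg1 harg2
      rw [← hza] at this
      rw [this]; ring
    rw [← hza] at h1 h2
    rw [hAre, h3, hre0]
    have h4 := abs_le.mp (hG (g z).re x₀)
    rw [abs_of_nonneg (sub_nonneg.mpr h1)] at h4
    rcases hs with rfl | rfl <;> linarith
  obtain ⟨δ, hδ, M, hM⟩ := bounded_near hK hGc hG hcompl hfb hlim hg hge
  have hres := max_principle hAc hAd hAb hδ
    (M := M + K * (g z₀).re + |(g z₀).im| + 2 * Real.pi + |φ|) (by
    intro z hz hzδ
    obtain ⟨h1, h2⟩ := hM z hz hzδ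
    rw [hAre]
    have h3 := neg_pi_lt_arg (1 + z)
    have h4 := arg_le_pi (1 + z)
    have h5 := neg_abs_le (g z₀).im
    have h6 := le_abs_self (g z₀).im
    have h7 := neg_abs_le φ
    have h8 := le_abs_self φ
    rcases hs with rfl | rfl <;> linarith)
  intro z hz
  rw [← hAre]
  exact hres z hz

theorem upper_of_graph {f : ℂ → ℂ} (hf : ClassS f) {x₀ K φ : ℝ} {G : ℝ → ℝ} (hK : 0 ≤ K)
    (hG : ∀ x y, |G x - G y| ≤ K * |x - y|)
    (hcompl : ∀ w : ℂ, w ∉ f '' ball 0 1 ↔ ∃ x ≥ x₀, w = exp (x + G x * I))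
    (hφ : φ ∈ Ioo (-Real.pi) Real.pi)
    (ht : HasTipAt f (exp (x₀ + G x₀ * I)) φ) : |Real.tan (φ / 2)| ≤ K := by
  have hGc : Continuous G := by
    have : LipschitzWith K.toNNReal G := by
      apply LipschitzWith.of_dist_le_mul
      intro x y
      rw [Real.dist_eq, Real.dist_eq, Real.coe_toNNReal K hK]
      exact hG x y
    exact this.continuous
  set ω := exp (x₀ + G x₀ * I) with hω
  have hωnot : ω ∉ f '' ball 0 1 := (hcompl ω).mpr ⟨x₀, le_rfl, rfl⟩
  obtain ⟨fb, hfbc, hfb, hlim, hbd, htip, hseq⟩ := exists_boundary hf hφ.1 hφ.2 ht hωnot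
  obtain ⟨g, hg, hgd, hge⟩ := exists_log hf hfbc hfb hbd
  have hdisc := disc_ineq hK hGc hG hcompl hfb hlim hbd hg hgd hge hφ htip
  set z₀ := exp (φ * I) with hz₀
  obtain ⟨hz₀s, hz₀ne, hz₀D⟩ := exp_mul_I_mem hφ.1 hφ.2
  rw [← hz₀] at hz₀s hz₀ne hz₀D
  have hlogz₀ : log z₀ = φ * I := by
    rw [hz₀, log_exp (by simpa using hφ.1) (by simpa using hφ.2.le)]
  have hz₀slit : z₀ ∈ slitPlane := by
    rw [mem_slitPlane_iff_arg]
    have h1 : arg z₀ = φ := by rw [← log_im, hlogz₀]; simp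
    refine ⟨by rw [h1]; exact hφ.2.ne, ?_⟩
    rw [hz₀]; exact exp_ne_zero _
  let ρ : ℕ → ℝ := fun n => 1 / ((n : ℝ) + 1)
  have hρpos : ∀ n, 0 < ρ n := fun n => by simp only [ρ]; positivity
  have hρlim : Tendsto ρ atTop (𝓝 0) := tendsto_one_div_add_atTop_nhds_zero_nat
  -- preimages of the points of the segment below the tip
  have hex : ∀ n, ∃ z ∈ ball (0 : ℂ) 1, f z = exp (-(ρ n : ℂ)) * ω := by
    intro n
    by_contra hcon
    have h1 : exp (-(ρ n : ℂ)) * ω ∉ f '' ball 0 1 := by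
      rintro ⟨z, hz, hzf⟩
      exact hcon ⟨z, hz, hzf⟩
    obtain ⟨x, hx, hxe⟩ := (hcompl _).mp h1
    rw [hω, ← exp_add] at hxe
    have h2 := congrArg norm hxe
    rw [norm_exp, norm_exp] at h2
    have h3 := Real.exp_injective h2
    simp at h3
    have := hρpos n
    linarith
  choose u hu hfu using hex
  have hfulim : Tendsto (fun n => f (u n)) atTop (𝓝 ω) := by
    have h1 : Tendsto (fun n => exp (-(ρ n : ℂ)) * ω) atTop (𝓝 (exp (-((0 : ℝ) : ℂ)) * ω)) := by
      apply Tendsto.mul_const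
      apply (continuous_exp.tendsto _).comp
      apply Tendsto.neg
      exact (continuous_ofReal.tendsto 0).comp hρlim
    have h2 : exp (-((0 : ℝ) : ℂ)) * ω = ω := by simp
    rw [h2] at h1
    exact h1.congr fun n => (hfu n).symm
  have hulim : Tendsto u atTop (𝓝 z₀) := hseq u hu hfulim
  have hulimD : Tendsto u atTop (𝓝[D] z₀) :=
    tendsto_nhdsWithin_iff.mpr ⟨hulim, Eventually.of_forall fun n => ball_subset_D (hu n)⟩
  have hgu : Tendsto (fun n => g (u n)) atTop (𝓝 (g z₀)) := (hg z₀ hz₀D).tendsto.comp hulimD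
  have hlogu : Tendsto (fun n => log (u n)) atTop (𝓝 (log z₀)) :=
    (continuousAt_clog hz₀slit).tendsto.comp hulim
  have hune : ∀ n, u n ≠ 0 := by
    intro n h0
    have h1 := hfu n
    rw [h0, hf.map_zero] at h1
    exact (mul_ne_zero (exp_ne_zero _) (exp_ne_zero _)) h1.symm
  have hexpu : ∀ n, exp (log (u n) + g (u n) - (φ * I + g z₀) + ρ n) = 1 := by
    intro n
    have h1 : exp (log (u n) + g (u n)) = exp (-(ρ n : ℂ)) * ω := by
      rw [exp_add, exp_log (hune n), hge _ (ball_subset_D (hu n)), hfb _ (hu n), hfu n]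
    have h2 : exp (φ * I + g z₀) = ω := by
      rw [exp_add, ← hz₀, hge _ hz₀D, htip]
    rw [exp_add, exp_sub, h1, h2, mul_div_assoc, div_self (exp_ne_zero _), mul_one, ← exp_add]
    simp
  have hdlim : Tendsto (fun n => log (u n) + g (u n) - (φ * I + g z₀) + ρ n) atTop (𝓝 0) := by
    have h1 : Tendsto (fun n => log (u n) + g (u n) - (φ * I + g z₀) + ρ n) atTop
        (𝓝 (log z₀ + g z₀ - (φ * I + g z₀) + ((0 : ℝ) : ℂ))) := by
      apply Tendsto.add
      · exact (hlogu.add hgu).sub_const _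
      · exact (continuous_ofReal.tendsto 0).comp hρlim
    have h2 : log z₀ + g z₀ - (φ * I + g z₀) + ((0 : ℝ) : ℂ) = 0 := by
      rw [hlogz₀]; simp
    rwa [h2] at h1
  have hev : ∀ᶠ n in atTop, log (u n) + g (u n) - (φ * I + g z₀) + ρ n = 0 := by
    have h1 : ∀ᶠ n in atTop, ‖log (u n) + g (u n) - (φ * I + g z₀) + ρ n‖ < 1 := by
      have h2 := hdlim.norm
      rw [norm_zero] at h2
      exact h2.eventually (gt_mem_nhds one_pos)
    filter_upwards [h1] with n hn
    have h2 := abs_im_le_norm (log (u n) + g (u n) - (φ * I + g z₀) + ρ n)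
    have h3 := abs_le.mp h2
    have h4 := log_exp (x := log (u n) + g (u n) - (φ * I + g z₀) + ρ n)
      (by linarith [Real.pi_gt_three]) (by linarith [Real.pi_gt_three])
    rw [hexpu, log_one] at h4
    exact h4.symm
  have hineq : ∀ᶠ n in atTop, (1 + ‖u n‖) * |(u n).im| ≤ K * ‖1 + u n‖ ^ 2 := by
    filter_upwards [hev] with n hn
    have hun : ‖u n‖ < 1 := by simpa using hu n
    apply key_ineq hK hun (hune n)
    have h1 := congrArg re hn
    have h2 := congrArg im hn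
    simp [log_re, log_im] at h1 h2
    have h3 := hdisc 1 (Or.inl rfl) (u n) (hu n)
    have h4 := hdisc (-1) (Or.inr rfl) (u n) (hu n)
    have h5 : K * ((g (u n)).re - (g z₀).re) ≤ K * (-Real.log ‖u n‖) := by
      apply mul_le_mul_of_nonneg_left _ hK
      have := hρpos n
      linarith
    rw [abs_le]
    constructor <;> linarith
  have hlimL : Tendsto (fun n => (1 + ‖u n‖) * |(u n).im|) atTop (𝓝 ((1 + ‖z₀‖) * |z₀.im|)) := by
    apply Tendsto.mul
    · exact hulim.norm.const_add 1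
    · exact ((continuous_im.tendsto z₀).comp hulim).abs
  have hlimR : Tendsto (fun n => K * ‖1 + u n‖ ^ 2) atTop (𝓝 (K * ‖1 + z₀‖ ^ 2)) :=
    ((hulim.const_add 1).norm.pow 2).const_mul K
  exact tan_half_le hφ.1 hφ.2 (le_of_tendsto_of_tendsto hlimL hlimR hineq)

/-- The upper bound `|φ_f| ≤ α π`. -/
theorem upper_bound {α : ℝ} (h0 : 0 < α) (h1 : α ≤ 1) {x : ℝ} (hx : x ∈ tipSet α) :
    x ≤ α * Real.pi := by
  obtain ⟨f, γ, φ, hf, hφ1, hφ2, ht, rfl⟩ := hx
  rcases h1.lt_or_eq with h1 | rfl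
  · obtain ⟨x₀, G, hG, hΓ, htip⟩ := exists_graph h0 h1 hf
    have hψ0 : 0 < α * Real.pi / 2 := by positivity
    have hψ1 : α * Real.pi / 2 < Real.pi / 2 := by nlinarith [Real.pi_pos]
    have hKpos : 0 < Real.tan (α * Real.pi / 2) := Real.tan_pos_of_pos_of_lt_pi_div_two hψ0 hψ1
    rw [htip] at ht
    have hcompl : ∀ w : ℂ, w ∉ f '' ball 0 1 ↔ ∃ x ≥ x₀, w = exp (x + G x * I) := by
      intro w
      rw [← hΓ w, ← hf.compl, mem_compl_iff]
    have h2 := upper_of_graph hf.mem hKpos.le hG hcompl ⟨hφ1, hφ2⟩ ht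
    have h3 := abs_le.mp h2
    by_contra hcon
    push Not at hcon
    rcases lt_abs.mp hcon with h4 | h4
    · have h5 := Real.strictMonoOn_tan (a := α * Real.pi / 2) (b := φ / 2)
        ⟨by linarith, hψ1⟩ ⟨by linarith, by linarith⟩ (by linarith)
      linarith
    · have h5 := Real.strictMonoOn_tan (a := φ / 2) (b := -(α * Real.pi / 2))
        ⟨by linarith, by linarith⟩ ⟨by linarith, by linarith⟩ (by linarith)
      rw [Real.tan_neg] at h5
      linarith
  · rw [one_mul, abs_le]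
    exact ⟨hφ1.le, hφ2.le⟩

/-- The exponent `1 + e^{2iψ}`. -/
noncomputable def cc (ψ : ℝ) : ℂ := 1 + exp ((2 * ψ : ℝ) * I)

/-- The spirallike extremal function. -/
noncomputable def fsp (ψ : ℝ) (z : ℂ) : ℂ := z * exp (-cc ψ * log (1 + z))

/-- The real function describing the boundary values. -/
noncomputable def Rf (ψ θ : ℝ) : ℝ :=
  θ * Real.sin ψ - 2 * Real.cos ψ * Real.log (2 * Real.cos (θ / 2))

theorem cc_eq (ψ : ℝ) : cc ψ = 2 * Real.cos ψ * exp (ψ * I) := by
  unfold cc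
  rw [one_add_exp_mul_I]
  rw [show 2 * ψ / 2 = ψ by ring]
  push_cast; ring

/-- Noshiro-Warschawski on a convex set. -/
theorem injOn_of_re_deriv_pos {U : Set ℂ} (hU : Convex ℝ U) {P P' : ℂ → ℂ} {c : ℂ}
    (hd : ∀ z ∈ U, HasDerivAt P (P' z) z) (hp : ∀ z ∈ U, 0 < (c * P' z).re) : InjOn P U := by
  intro z₁ h1 z₂ h2 he
  by_contra hne
  have hne' : z₂ - z₁ ≠ 0 := sub_ne_zero.mpr (Ne.symm hne)
  let h : ℝ → ℝ := fun t => (c * (P (z₁ + t * (z₂ - z₁)) / (z₂ - z₁))).re
  have hmem : ∀ t ∈ Icc (0 : ℝ) 1, z₁ + t * (z₂ - z₁) ∈ U := by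
    intro t ht
    have := hU h1 h2 (sub_nonneg.mpr ht.2) ht.1 (by ring)
    convert this using 1
    simp only [real_smul]
    push_cast; ring
  have hder : ∀ t ∈ Icc (0 : ℝ) 1, HasDerivAt h ((c * P' (z₁ + t * (z₂ - z₁))).re) t := by
    intro t ht
    have e1 : HasDerivAt (fun s : ℝ => z₁ + (s : ℂ) * (z₂ - z₁)) (z₂ - z₁) t := by
      have := ((ofRealCLM.hasDerivAt (x := t)).mul_const (z₂ - z₁)).const_add z₁
      simpa using this
    have e2 : HasDerivAt (fun s : ℝ => P (z₁ + (s : ℂ) * (z₂ - z₁)))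
        (P' (z₁ + t * (z₂ - z₁)) * (z₂ - z₁)) t :=
      HasDerivAt.comp t (h₂ := P) (hd _ (hmem t ht)) e1
    have e3 : HasDerivAt (fun s : ℝ => c * (P (z₁ + (s : ℂ) * (z₂ - z₁)) / (z₂ - z₁)))
        (c * P' (z₁ + t * (z₂ - z₁))) t := by
      have := (e2.div_const (z₂ - z₁)).const_mul c
      rwa [mul_div_assoc, div_self hne', mul_one] at this
    exact reCLM.hasFDerivAt.comp_hasDerivAt t e3
  have hmono : StrictMonoOn h (Icc 0 1) := by
    apply strictMonoOn_of_deriv_pos (convex_Icc 0 1)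
    · intro t ht
      exact (hder t ht).continuousAt.continuousWithinAt
    · intro t ht
      rw [interior_Icc] at ht
      rw [(hder t ⟨ht.1.le, ht.2.le⟩).deriv]
      exact hp _ (hmem t ⟨ht.1.le, ht.2.le⟩)
  have h3 := hmono (left_mem_Icc.mpr zero_le_one) (right_mem_Icc.mpr zero_le_one) one_pos
  simp only [h] at h3
  have e4 : z₁ + ((0 : ℝ) : ℂ) * (z₂ - z₁) = z₁ := by simp
  have e5 : z₁ + ((1 : ℝ) : ℂ) * (z₂ - z₁) = z₂ := by simp
  rw [e4, e5, he] at h3
  exact lt_irrefl _ h3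

theorem norm_exp_I_mul {ζ : ℂ} (h : 0 < ζ.im) : ‖exp (I * ζ)‖ < 1 := by
  rw [norm_exp]
  simp [h]

theorem re_pos_aux {ψ : ℝ} (hψ : 0 < Real.cos ψ) {z : ℂ} (hz : ‖z‖ < 1) :
    0 < (exp (-(ψ * I)) * (1 - exp ((2 * ψ : ℝ) * I) * z) / (1 + z)).re := by
  have h1z : 1 + z ≠ 0 := by
    intro h1
    have : z = -1 := by linear_combination h1
    rw [this] at hz
    simp at hz
  have hR : 0 < normSq (1 + z) := normSq_pos.mpr h1z
  have hzz : normSq z < 1 := by
    rw [normSq_eq_norm_sq]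
    nlinarith [norm_nonneg z]
  have e1 : exp (-(ψ * I)) = Real.cos ψ - Real.sin ψ * I := by
    rw [show -((ψ : ℂ) * I) = ((-ψ : ℝ) : ℂ) * I by push_cast; ring, exp_mul_I, ← ofReal_cos,
      ← ofReal_sin, Real.cos_neg, Real.sin_neg]
    push_cast; ring
  have e2 : exp (-(ψ * I)) * (1 - exp ((2 * ψ : ℝ) * I) * z) =
      (Real.cos ψ - Real.sin ψ * I) - (Real.cos ψ + Real.sin ψ * I) * z := by
    rw [mul_sub, mul_one, ← mul_assoc, ← exp_add]
    have : -(ψ * I) + ((2 * ψ : ℝ) : ℂ) * I = ψ * I := by push_cast; ring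
    rw [this, e1, exp_mul_I, ← ofReal_cos, ← ofReal_sin]
  rw [e2, div_re, ← add_div]
  apply div_pos _ hR
  have e3 : normSq z = z.re * z.re + z.im * z.im := normSq_apply z
  simp only [sub_re, add_re, mul_re, sub_im, add_im, mul_im, ofReal_re, ofReal_im, I_re, I_im,
    one_re, one_im]
  have e4 : (Real.cos ψ - (Real.sin ψ * 0 - 0 * 1) -
      ((Real.cos ψ + (Real.sin ψ * 0 - 0 * 1)) * z.re -
      (0 + (Real.sin ψ * 1 + 0 * 0)) * z.im)) * (1 + z.re) +
      (0 - (Real.sin ψ * 1 + 0 * 0) - ((Real.cos ψ + (Real.sin ψ * 0 - 0 * 1)) * z.im +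
      (0 + (Real.sin ψ * 1 + 0 * 0)) * z.re)) * (0 + z.im) =
      Real.cos ψ * (1 - normSq z) := by
    rw [e3]; ring
  rw [e4]
  exact mul_pos hψ (by linarith)

theorem fsp_injOn {ψ : ℝ} (hψ : 0 < Real.cos ψ) : InjOn (fsp ψ) (ball 0 1) := by
  let P : ℂ → ℂ := fun ζ => I * ζ - cc ψ * log (1 + exp (I * ζ))
  have hmemD : ∀ ζ : ℂ, 0 < ζ.im → exp (I * ζ) ∈ D := fun ζ hζ =>
    ball_subset_D (by simpa using norm_exp_I_mul hζ)
  have hPd : ∀ ζ ∈ {ζ : ℂ | 0 < ζ.im}, HasDerivAt P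
      (I * (1 - exp ((2 * ψ : ℝ) * I) * exp (I * ζ)) / (1 + exp (I * ζ))) ζ := by
    intro ζ hζ
    have h0 := one_add_mem_slitPlane (hmemD ζ hζ)
    have h1 : HasDerivAt (fun ζ : ℂ => I * ζ) I ζ := by
      simpa using (hasDerivAt_id ζ).const_mul I
    have h2 : HasDerivAt (fun ζ : ℂ => 1 + exp (I * ζ)) (exp (I * ζ) * I) ζ :=
      h1.cexp.const_add 1
    have h3 := h1.sub ((h2.clog h0).const_mul (cc ψ))
    have h4 := slitPlane_ne_zero h0
    have h5 : I * (1 - exp ((2 * ψ : ℝ) * I) * exp (I * ζ)) / (1 + exp (I * ζ)) =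
        I - cc ψ * (exp (I * ζ) * I / (1 + exp (I * ζ))) := by
      unfold cc
      field_simp
      ring
    rw [h5]
    exact h3
  have hPinj : InjOn P {ζ : ℂ | 0 < ζ.im} := by
    apply injOn_of_re_deriv_pos (convex_halfSpace_im_gt 0) (c := -I * exp (-(ψ * I))) hPd
    intro ζ hζ
    have h1 := re_pos_aux hψ (norm_exp_I_mul hζ)
    convert h1 using 2
    rw [mul_div_assoc, mul_div_assoc]
    linear_combination (-(exp (-(ψ * I))) * ((1 - exp ((2 * ψ : ℝ) * I) * exp (I * ζ)) /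
      (1 + exp (I * ζ)))) * I_mul_I
  have hPe : ∀ ζ : ℂ, exp (P ζ) = fsp ψ (exp (I * ζ)) := by
    intro ζ
    simp only [P, fsp]
    rw [exp_sub, div_eq_mul_inv, ← exp_neg, neg_mul]
  have hzero : ∀ z, fsp ψ z = 0 → z = 0 := by
    intro z hz
    unfold fsp at hz
    exact (mul_eq_zero.mp hz).resolve_right (exp_ne_zero _)
  have hlift : ∀ z ∈ ball (0 : ℂ) 1, z ≠ 0 → 0 < (-I * log z).im ∧ exp (I * (-I * log z)) = z := by
    intro z hz hz0
    have hz1 : ‖z‖ < 1 := by simpa using hz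
    constructor
    · simp [log_re]
      exact Real.log_neg (norm_pos_iff.mpr hz0) hz1
    · rw [← mul_assoc]
      simp [exp_log hz0]
  intro z₁ h1 z₂ h2 he
  rcases eq_or_ne z₁ 0 with rfl | hz1
  · have : fsp ψ z₂ = 0 := by rw [← he]; simp [fsp]
    exact (hzero _ this).symm
  rcases eq_or_ne z₂ 0 with rfl | hz2
  · have : fsp ψ z₁ = 0 := by rw [he]; simp [fsp]
    exact hzero _ this
  obtain ⟨a1, a2⟩ := hlift z₁ h1 hz1
  obtain ⟨b1, b2⟩ := hlift z₂ h2 hz2
  have h3 : exp (P (-I * log z₁)) = exp (P (-I * log z₂)) := by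
    rw [hPe, hPe, a2, b2, he]
  obtain ⟨n, hn⟩ := exp_eq_exp_iff_exists_int.mp h3
  have hper : exp (I * (-I * log z₂ + 2 * Real.pi * n)) = z₂ := by
    rw [mul_add, exp_add, b2]
    have : I * (2 * Real.pi * n) = n * (2 * Real.pi * I) := by ring
    rw [this, exp_int_mul_two_pi_mul_I, mul_one]
  have h4 : P (-I * log z₁) = P (-I * log z₂ + 2 * Real.pi * n) := by
    rw [hn]
    simp only [P]
    rw [hper, b2]
    ring
  have h5 := hPinj a1 (by
    have : (-I * log z₂ + 2 * Real.pi * n).im = (-I * log z₂).im := by simp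
    rw [mem_ofPred_eq, this]; exact b1) h4
  rw [← a2, h5, hper]

theorem fsp_differentiableAt {ψ : ℝ} {z : ℂ} (hz : z ∈ D) : DifferentiableAt ℂ (fsp ψ) z := by
  unfold fsp
  apply DifferentiableAt.mul differentiableAt_id
  apply DifferentiableAt.cexp
  apply DifferentiableAt.const_mul
  exact DifferentiableAt.clog (by fun_prop) (one_add_mem_slitPlane hz)

theorem fsp_deriv_zero (ψ : ℝ) : deriv (fsp ψ) 0 = 1 := by
  have h0 : (0 : ℂ) ∈ D := ball_subset_D (mem_ball_self one_pos)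
  have h1 : DifferentiableAt ℂ (fun z : ℂ => exp (-cc ψ * log (1 + z))) 0 := by
    apply DifferentiableAt.cexp
    apply DifferentiableAt.const_mul
    exact DifferentiableAt.clog (by fun_prop) (one_add_mem_slitPlane h0)
  have h2 := (hasDerivAt_id (0 : ℂ)).mul h1.hasDerivAt
  have h3 : HasDerivAt (fsp ψ) (1 * exp (-cc ψ * log (1 + 0)) +
      id (0 : ℂ) * deriv (fun z : ℂ => exp (-cc ψ * log (1 + z))) 0) 0 := h2
  rw [h3.deriv]
  simp

theorem fsp_classS {ψ : ℝ} (hψ : 0 < Real.cos ψ) : ClassS (fsp ψ) where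
  diff := fun _ hz => (fsp_differentiableAt (ball_subset_D hz)).differentiableWithinAt
  inj := fsp_injOn hψ
  map_zero := by simp [fsp]
  deriv_zero := fsp_deriv_zero ψ

theorem fsp_circle {ψ θ : ℝ} (h1 : -Real.pi < θ) (h2 : θ < Real.pi) :
    fsp ψ (exp (θ * I)) = exp (exp (ψ * I) * (Rf ψ θ : ℝ)) := by
  have hc : 0 < Real.cos (θ / 2) := Real.cos_pos_of_mem_Ioo ⟨by linarith, by linarith⟩
  have hlog : log (1 + exp (θ * I)) = Real.log (2 * Real.cos (θ / 2)) + (θ / 2 : ℝ) * I := by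
    apply Complex.ext
    · rw [log_re, one_add_exp_mul_I, norm_mul, norm_exp_ofReal_mul_I, norm_real,
        Real.norm_of_nonneg (by positivity)]
      simp
    · rw [log_im, arg_one_add_exp h1 h2]
      simp
  unfold fsp
  rw [hlog, ← exp_add]
  congr 1
  have e1 : (1 : ℂ) = exp (ψ * I) * (Real.cos ψ - Real.sin ψ * I) := by
    have : (Real.cos ψ - Real.sin ψ * I : ℂ) = exp (-(ψ * I)) := by
      rw [show -((ψ : ℂ) * I) = ((-ψ : ℝ) : ℂ) * I by push_cast; ring, exp_mul_I, ← ofReal_cos,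
        ← ofReal_sin, Real.cos_neg, Real.sin_neg]
      push_cast; ring
    rw [this, ← exp_add]; simp
  rw [cc_eq, Rf]
  push_cast
  have e2 : (θ : ℂ) * I = exp (ψ * I) * (Real.cos ψ - Real.sin ψ * I) * (θ * I) := by
    rw [← e1, one_mul]
  rw [e2]
  push_cast
  linear_combination (-(exp (ψ * I)) * Complex.sin ψ * θ) * I_mul_I

theorem Rf_hasDerivAt {ψ θ : ℝ} (h1 : -Real.pi < θ) (h2 : θ < Real.pi) :
    HasDerivAt (Rf ψ) (Real.sin ψ + Real.cos ψ * Real.tan (θ / 2)) θ := by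
  have hc : 0 < Real.cos (θ / 2) := Real.cos_pos_of_mem_Ioo ⟨by linarith, by linarith⟩
  have e1 : HasDerivAt (fun θ : ℝ => 2 * Real.cos (θ / 2)) (2 * (-Real.sin (θ / 2) * (1 / 2))) θ := by
    have := ((hasDerivAt_id θ).div_const 2).cos.const_mul 2
    exact this
  have e2 := ((hasDerivAt_id θ).mul_const (Real.sin ψ)).sub
    ((e1.log (by positivity)).const_mul (2 * Real.cos ψ))
  have e3 : Real.sin ψ + Real.cos ψ * Real.tan (θ / 2) = 1 * Real.sin ψ -
      2 * Real.cos ψ * (2 * (-Real.sin (θ / 2) * (1 / 2)) / (2 * Real.cos (θ / 2))) := by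
    rw [Real.tan_eq_sin_div_cos]
    field_simp
    ring
  rw [e3]
  exact e2

theorem Rf_gt {ψ θ : ℝ} (hψ0 : 0 < ψ) (hψ1 : ψ < Real.pi / 2) (h1 : -Real.pi < θ)
    (h2 : θ < Real.pi) (hne : θ ≠ -(2 * ψ)) : Rf ψ (-(2 * ψ)) < Rf ψ θ := by
  have hcψ : 0 < Real.cos ψ := Real.cos_pos_of_mem_Ioo ⟨by linarith, hψ1⟩
  have hfac : ∀ x, Real.sin ψ + Real.cos ψ * Real.tan (x / 2) =
      Real.cos ψ * (Real.tan (x / 2) - Real.tan (-ψ)) := by
    intro x
    rw [Real.tan_neg, Real.tan_eq_sin_div_cos ψ]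
    field_simp
    ring
  rcases lt_or_gt_of_ne hne with h | h
  · have hanti : StrictAntiOn (Rf ψ) (Ioc (-Real.pi) (-(2 * ψ))) := by
      apply strictAntiOn_of_deriv_neg (convex_Ioc _ _)
      · intro x hx
        exact (Rf_hasDerivAt hx.1 (by linarith [hx.2])).continuousAt.continuousWithinAt
      · intro x hx
        rw [interior_Ioc] at hx
        rw [(Rf_hasDerivAt hx.1 (by linarith [hx.2])).deriv, hfac]
        have := Real.strictMonoOn_tan (a := x / 2) (b := -ψ) ⟨by linarith [hx.1], by linarith [hx.2]⟩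
          ⟨by linarith, by linarith⟩ (by linarith [hx.2])
        nlinarith
    exact hanti ⟨h1, h.le⟩ ⟨by linarith, le_rfl⟩ h
  · have hmono : StrictMonoOn (Rf ψ) (Ico (-(2 * ψ)) Real.pi) := by
      apply strictMonoOn_of_deriv_pos (convex_Ico _ _)
      · intro x hx
        exact (Rf_hasDerivAt (by linarith [hx.1]) hx.2).continuousAt.continuousWithinAt
      · intro x hx
        rw [interior_Ico] at hx
        rw [(Rf_hasDerivAt (by linarith [hx.1]) hx.2).deriv, hfac]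
        have := Real.strictMonoOn_tan (a := -ψ) (b := x / 2) ⟨by linarith, by linarith⟩
          ⟨by linarith [hx.1], by linarith [hx.2]⟩ (by linarith [hx.1])
        nlinarith
    exact hmono ⟨le_rfl, by linarith⟩ ⟨h.le, h2⟩ h

theorem Rf_surj {ψ : ℝ} (hψ0 : 0 < ψ) (hψ1 : ψ < Real.pi / 2) {s : ℝ}
    (hs : Rf ψ (-(2 * ψ)) ≤ s) : ∃ θ : ℝ, -Real.pi < θ ∧ θ < Real.pi ∧ Rf ψ θ = s := by
  have hcψ : 0 < Real.cos ψ := Real.cos_pos_of_mem_Ioo ⟨by linarith, hψ1⟩
  have hsψ : 0 < Real.sin ψ := Real.sin_pos_of_pos_of_lt_pi hψ0 (by linarith [Real.pi_pos])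
  set B : ℝ := |s| / (2 * Real.cos ψ) with hB
  have hB0 : 0 ≤ B := by positivity
  set y : ℝ := Real.exp (-B) / 2 with hy
  have hy0 : 0 < y := by positivity
  have hy1 : y ≤ 1 / 2 := by
    have : Real.exp (-B) ≤ 1 := Real.exp_le_one_iff.mpr (by linarith)
    rw [hy]; linarith
  set θ₁ : ℝ := 2 * Real.arccos y with hθ₁
  have ha0 : 0 ≤ Real.arccos y := Real.arccos_nonneg y
  have ha1 : Real.arccos y < Real.pi / 2 := by
    rw [Real.arccos_lt_pi_div_two]; exact hy0
  have hθ0 : 0 ≤ θ₁ := by positivity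
  have hθπ : θ₁ < Real.pi := by rw [hθ₁]; linarith
  have hval : s ≤ Rf ψ θ₁ := by
    unfold Rf
    rw [hθ₁, mul_div_cancel_left₀ _ two_ne_zero, Real.cos_arccos (by linarith) (by linarith), hy,
      mul_div_cancel₀ _ two_ne_zero, Real.log_exp]
    have h1 : 2 * Real.cos ψ * -B = -|s| := by
      rw [hB]; field_simp
    rw [h1]
    have h2 : 0 ≤ 2 * Real.arccos y * Real.sin ψ := by positivity
    linarith [le_abs_self s]
  have hcont : ContinuousOn (Rf ψ) (Icc (-(2 * ψ)) θ₁) := by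
    intro x hx
    exact (Rf_hasDerivAt (by linarith [hx.1]) (by linarith [hx.2])).continuousAt.continuousWithinAt
  obtain ⟨θ, hθ, hθs⟩ := intermediate_value_Icc (by linarith) hcont ⟨hs, hval⟩
  exact ⟨θ, by linarith [hθ.1], by linarith [hθ.2], hθs⟩

theorem exp_spiral_inj {ψ a b : ℝ} (hψ : 0 < Real.cos ψ)
    (h : exp (exp (ψ * I) * a) = exp (exp (ψ * I) * b)) : a = b := by
  have h1 := congrArg norm h
  rw [norm_exp, norm_exp] at h1
  have h2 := Real.exp_injective h1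
  have h3 : ∀ x : ℝ, (exp (ψ * I) * x).re = Real.cos ψ * x := by
    intro x
    rw [re_mul_ofReal, exp_ofReal_mul_I_re]
  rw [h3, h3] at h2
  exact mul_left_cancel₀ hψ.ne' h2

/-- The logarithmic spiral omitted by `fsp ψ`. -/
noncomputable def γsp (ψ t : ℝ) : ℂ := exp (exp (ψ * I) * ((Rf ψ (-(2 * ψ)) + t : ℝ) : ℂ))

theorem γsp_hasDerivAt (ψ t : ℝ) : HasDerivAt (γsp ψ) (exp (ψ * I) * γsp ψ t) t := by
  have h1 : HasDerivAt (fun t : ℝ => ((Rf ψ (-(2 * ψ)) + t : ℝ) : ℂ)) 1 t := by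
    have := (((hasDerivAt_id t).const_add (Rf ψ (-(2 * ψ))))).ofReal_comp
    simpa using this
  have h2 := (h1.const_mul (exp (ψ * I))).cexp
  rw [mul_one] at h2
  have h3 : exp (ψ * I) * γsp ψ t = γsp ψ t * exp (ψ * I) := mul_comm _ _
  rw [h3]
  exact h2

theorem γsp_analyticAt (ψ t : ℝ) : AnalyticAt ℝ (γsp ψ) t := by
  unfold γsp
  have h1 : AnalyticAt ℝ (fun t : ℝ => exp (ψ * I) * ((Rf ψ (-(2 * ψ)) + t : ℝ) : ℂ)) t := by
    apply AnalyticAt.mul analyticAt_const
    have : (fun t : ℝ => ((Rf ψ (-(2 * ψ)) + t : ℝ) : ℂ)) =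
        fun t => ofRealCLM (Rf ψ (-(2 * ψ)) + t) := rfl
    rw [this]
    exact (ofRealCLM.analyticAt _).comp (analyticAt_const.add analyticAt_id)
  have h2 : AnalyticAt ℝ (fun z : ℂ => exp z)
      ((fun t : ℝ => exp (ψ * I) * ((Rf ψ (-(2 * ψ)) + t : ℝ) : ℂ)) t) :=
    AnalyticAt.restrictScalars (𝕜' := ℂ) analyticAt_cexp
  exact AnalyticAt.comp (f := fun t : ℝ => exp (ψ * I) * ((Rf ψ (-(2 * ψ)) + t : ℝ) : ℂ)) h2 h1

theorem γsp_norm (ψ t : ℝ) : ‖γsp ψ t‖ = Real.exp (Real.cos ψ * (Rf ψ (-(2 * ψ)) + t)) := by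
  unfold γsp
  rw [norm_exp, re_mul_ofReal, exp_ofReal_mul_I_re]

theorem γsp_isSlitArc {ψ : ℝ} (hψ : 0 < Real.cos ψ) : IsSlitArc (γsp ψ) where
  cont := fun t _ => (γsp_hasDerivAt ψ t).continuousAt.continuousWithinAt
  inj := by
    intro s _ t _ h
    have := exp_spiral_inj hψ h
    linarith
  tends := by
    rw [← Metric.cobounded_eq_cocompact, ← tendsto_norm_atTop_iff_cobounded]
    have h1 : Tendsto (fun t : ℝ => Real.exp (Real.cos ψ * (Rf ψ (-(2 * ψ)) + t))) atTop atTop :=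
      Real.tendsto_exp_atTop.comp
        ((tendsto_atTop_add_const_left _ _ tendsto_id).const_mul_atTop hψ)
    refine h1.congr fun t => (γsp_norm ψ t).symm
  pieces := by
    refine ⟨0, fun _ => 0, rfl, by simp, by simp, γsp ψ, fun _ _ => rfl, ?_⟩
    intro t _
    refine ⟨γsp_analyticAt ψ t, ?_⟩
    rw [(γsp_hasDerivAt ψ t).deriv]
    exact mul_ne_zero (exp_ne_zero _) (exp_ne_zero _)

theorem γsp_angle {ψ : ℝ} (hψ0 : 0 < ψ) (hψ1 : ψ < Real.pi / 2) {t : ℝ} (ht : 0 ≤ t) {u : ℂ}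
    (hu : IsTangentDir (γsp ψ) t u) : InnerProductGeometry.angle u (γsp ψ t) ≤ ψ := by
  have hγ : γsp ψ t ≠ 0 := exp_ne_zero _
  have hd : exp (ψ * I) * γsp ψ t ≠ 0 := mul_ne_zero (exp_ne_zero _) hγ
  have h1 := isTangentDir_of_hasDerivAt hd (γsp_hasDerivAt ψ t)
  have hne : (𝓝[Ici 0 \ {t}] t).NeBot := by
    have h2 : 𝓝[>] t ≤ 𝓝[Ici 0 \ {t}] t := by
      apply nhdsWithin_mono
      intro x hx
      exact ⟨ht.trans (le_of_lt hx), ne_of_gt hx⟩
    exact NeBot.mono inferInstance h2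
  have h3 : u = ‖exp (ψ * I) * γsp ψ t‖⁻¹ • (exp (ψ * I) * γsp ψ t) := tendsto_nhds_unique hu h1
  rw [h3, InnerProductGeometry.angle_smul_left_of_pos _ _ (by positivity), angle_eq_abs_arg hd hγ,
    mul_div_assoc, div_self hγ, mul_one, exp_mul_I, arg_cos_add_sin_mul_I, abs_of_pos hψ0]
  exact ⟨by linarith [Real.pi_pos], by linarith [Real.pi_pos]⟩

/-- The extension of `fsp ψ` to the closed disc. -/
noncomputable def Fsp (ψ : ℝ) (z : ℂ) : OnePoint ℂ :=
  open Classical in if z = -1 then OnePoint.infty else ((fsp ψ z : ℂ) : OnePoint ℂ)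

theorem fsp_tendsto {ψ : ℝ} (hψ : 0 < Real.cos ψ) :
    Tendsto (fsp ψ) (𝓝[D] (-1)) (cocompact ℂ) := by
  rw [← Metric.cobounded_eq_cocompact, ← tendsto_norm_atTop_iff_cobounded]
  have hre : (cc ψ).re = 2 * Real.cos ψ ^ 2 := by
    rw [cc_eq]
    have : (2 * (Real.cos ψ : ℂ) * exp (ψ * I)).re = 2 * Real.cos ψ * (exp (ψ * I)).re := by
      rw [show (2 * (Real.cos ψ : ℂ)) = ((2 * Real.cos ψ : ℝ) : ℂ) by push_cast; ring,
        re_ofReal_mul]
    rw [this, exp_ofReal_mul_I_re]; ring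
  have hrepos : 0 < (cc ψ).re := by rw [hre]; positivity
  have h1 : Tendsto (fun z : ℂ => ‖z‖) (𝓝[D] (-1)) (𝓝 1) := by
    have : Tendsto (fun z : ℂ => ‖z‖) (𝓝 (-1)) (𝓝 ‖(-1 : ℂ)‖) := continuous_norm.tendsto _
    rw [norm_neg, norm_one] at this
    exact this.mono_left nhdsWithin_le_nhds
  have h2 : Tendsto (fun z : ℂ => Real.log ‖1 + z‖) (𝓝[D] (-1)) atBot := by
    apply Real.tendsto_log_nhdsNE_zero.comp
    rw [tendsto_nhdsWithin_iff]
    constructor
    · have : Tendsto (fun z : ℂ => ‖1 + z‖) (𝓝 (-1)) (𝓝 ‖1 + (-1 : ℂ)‖) :=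
        Continuous.tendsto (by fun_prop) _
      rw [add_neg_cancel, norm_zero] at this
      exact this.mono_left nhdsWithin_le_nhds
    · filter_upwards [self_mem_nhdsWithin] with z hz
      exact norm_ne_zero_iff.mpr (slitPlane_ne_zero (one_add_mem_slitPlane hz))
  have h3 : Tendsto (fun z : ℂ => (-cc ψ * log (1 + z)).re) (𝓝[D] (-1)) atTop := by
    have h4 : Tendsto (fun z : ℂ => -(cc ψ).re * Real.log ‖1 + z‖ + -(|(cc ψ).im| * Real.pi))
        (𝓝[D] (-1)) atTop := by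
      apply tendsto_atTop_add_const_right
      exact h2.const_mul_atBot_of_neg (by linarith)
    refine tendsto_atTop_mono (fun z => ?_) h4
    rw [mul_re, neg_re, neg_im, log_re, log_im]
    have h5 : |(cc ψ).im * arg (1 + z)| ≤ |(cc ψ).im| * Real.pi := by
      rw [abs_mul]
      exact mul_le_mul_of_nonneg_left (abs_arg_le_pi _) (abs_nonneg _)
    have := neg_abs_le ((cc ψ).im * arg (1 + z))
    linarith
  have h6 : Tendsto (fun z : ℂ => ‖z‖ * Real.exp (-cc ψ * log (1 + z)).re) (𝓝[D] (-1)) atTop :=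
    h1.pos_mul_atTop one_pos (Real.tendsto_exp_atTop.comp h3)
  refine h6.congr fun z => ?_
  unfold fsp
  rw [norm_mul, norm_exp]

theorem Fsp_continuousOn {ψ : ℝ} (hψ : 0 < Real.cos ψ) : ContinuousOn (Fsp ψ) (closedBall 0 1) := by
  intro z hz
  rcases eq_or_ne z (-1) with rfl | hne
  · have h1 : closedBall (0 : ℂ) 1 = insert (-1) D := by
      unfold D
      rw [insert_sdiff_singleton, insert_eq_of_mem hz]
    rw [h1, continuousWithinAt_insert_self]
    have h2 : Fsp ψ (-1) = OnePoint.infty := by simp [Fsp]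
    rw [ContinuousWithinAt, h2]
    have h3 : Tendsto (fun z => ((fsp ψ z : ℂ) : OnePoint ℂ)) (𝓝[D] (-1)) (𝓝 OnePoint.infty) := by
      apply OnePoint.tendsto_coe_infty.comp
      rw [coclosedCompact_eq_cocompact]
      exact fsp_tendsto hψ
    refine h3.congr' ?_
    filter_upwards [self_mem_nhdsWithin] with z hz
    have : z ≠ -1 := (mem_D_iff.mp hz).2
    simp [Fsp, this]
  · have hzD : z ∈ D := ⟨hz, hne⟩
    apply ContinuousAt.continuousWithinAt
    have h1 : ContinuousAt (fun z => ((fsp ψ z : ℂ) : OnePoint ℂ)) z :=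
      (OnePoint.continuous_coe.continuousAt).comp (fsp_differentiableAt hzD).continuousAt
    apply h1.congr
    filter_upwards [isOpen_compl_singleton.mem_nhds hne] with x hx
    have : x ≠ -1 := hx
    simp [Fsp, this]

/-- A point of the circle other than `-1`. -/
theorem exists_angle {z : ℂ} (hz : z ∈ sphere (0 : ℂ) 1) (hz1 : z ≠ -1) :
    -Real.pi < arg z ∧ arg z < Real.pi ∧ z = exp (arg z * I) := by
  have hzn : ‖z‖ = 1 := by simpa using hz
  have hza : z = exp (arg z * I) := by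
    have := norm_mul_exp_arg_mul_I z
    rw [hzn] at this
    simpa using this.symm
  have hargne : arg z ≠ Real.pi := by
    intro h
    rw [h, exp_pi_mul_I] at hza
    exact hz1 hza
  exact ⟨neg_pi_lt_arg z, lt_of_le_of_ne (arg_le_pi z) hargne, hza⟩

theorem circle_mem_slit {ψ : ℝ} (hψ0 : 0 < ψ) (hψ1 : ψ < Real.pi / 2) {z : ℂ}
    (hz : z ∈ sphere (0 : ℂ) 1) (hz1 : z ≠ -1) : fsp ψ z ∈ γsp ψ '' Ici 0 := by
  obtain ⟨h1, h2, h3⟩ := exists_angle hz hz1
  rw [h3, fsp_circle h1 h2]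
  have h4 : Rf ψ (-(2 * ψ)) ≤ Rf ψ (arg z) := by
    rcases eq_or_ne (arg z) (-(2 * ψ)) with h | h
    · rw [h]
    · exact (Rf_gt hψ0 hψ1 h1 h2 h).le
  refine ⟨Rf ψ (arg z) - Rf ψ (-(2 * ψ)), sub_nonneg.mpr h4, ?_⟩
  unfold γsp
  rw [add_sub_cancel]

theorem slit_mem_circle {ψ : ℝ} (hψ0 : 0 < ψ) (hψ1 : ψ < Real.pi / 2) {t : ℝ} (ht : 0 ≤ t) :
    ∃ z ∈ sphere (0 : ℂ) 1, z ≠ -1 ∧ fsp ψ z = γsp ψ t := by
  obtain ⟨θ, h1, h2, h3⟩ := Rf_surj hψ0 hψ1 (s := Rf ψ (-(2 * ψ)) + t) (by linarith)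
  obtain ⟨a, b, -⟩ := exp_mul_I_mem h1 h2
  refine ⟨exp (θ * I), a, b, ?_⟩
  rw [fsp_circle h1 h2, h3]
  rfl

theorem fsp_image_open {ψ : ℝ} (hψ : 0 < Real.cos ψ) : IsOpen (fsp ψ '' ball 0 1) := by
  rw [isOpen_iff_mem_nhds]
  rintro _ ⟨z, hz, rfl⟩
  have hS := fsp_classS hψ
  have han : AnalyticAt ℂ (fsp ψ) z := hS.diff.analyticAt (isOpen_ball.mem_nhds hz)
  rcases han.eventually_constant_or_nhds_le_map_nhds with h | h
  · exfalso
    have h1 : ∀ᶠ x in 𝓝[≠] z, fsp ψ x = fsp ψ z := h.filter_mono nhdsWithin_le_nhds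
    have h2 : ∀ᶠ x in 𝓝[≠] z, x ∈ ball (0 : ℂ) 1 :=
      (isOpen_ball.eventually_mem hz).filter_mono nhdsWithin_le_nhds
    obtain ⟨x, hx1, hx2, hx3⟩ := (h1.and (h2.and self_mem_nhdsWithin)).exists
    exact hx3 (hS.inj hx2 hz hx1)
  · exact h (image_mem_map (isOpen_ball.mem_nhds hz))

theorem fsp_compl {ψ : ℝ} (hψ0 : 0 < ψ) (hψ1 : ψ < Real.pi / 2) :
    (fsp ψ '' ball 0 1)ᶜ = γsp ψ '' Ici 0 := by
  have hψ : 0 < Real.cos ψ := Real.cos_pos_of_mem_Ioo ⟨by linarith, hψ1⟩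
  have hS := fsp_classS hψ
  apply Subset.antisymm
  · intro w hw
    by_contra hwΓ
    apply hw
    let p : ℝ → ℂ := fun s => w * exp (-(exp (ψ * I) * s))
    have hpc : Continuous p := by
      simp only [p]; fun_prop
    have hpΓ : ∀ s ∈ Ici (0 : ℝ), p s ∉ γsp ψ '' Ici 0 := by
      rintro s hs ⟨t, ht, hts⟩
      apply hwΓ
      refine ⟨t + s, mem_Ici.mpr (add_nonneg ht hs), ?_⟩
      have h1 : w = p s * exp (exp (ψ * I) * s) := by
        simp only [p]
        rw [mul_assoc, ← exp_add]; simp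
      rw [h1, ← hts]
      unfold γsp
      rw [← exp_add]
      congr 1
      push_cast; ring
    have hopen := fsp_image_open hψ
    have hcl : closure (fsp ψ '' ball 0 1) ⊆ fsp ψ '' ball 0 1 ∪ γsp ψ '' Ici 0 := by
      intro x hx
      have hcomp : IsClosed (Fsp ψ '' closedBall 0 1) :=
        ((isCompact_closedBall (0 : ℂ) 1).image_of_continuousOn (Fsp_continuousOn hψ)).isClosed
      have h1 : closure (fsp ψ '' ball 0 1) ⊆
          ((↑) : ℂ → OnePoint ℂ) ⁻¹' (Fsp ψ '' closedBall 0 1) := by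
        apply closure_minimal _ (hcomp.preimage OnePoint.continuous_coe)
        rintro _ ⟨z, hz, rfl⟩
        refine ⟨z, ball_subset_closedBall hz, ?_⟩
        have : z ≠ -1 := (mem_D_iff.mp (ball_subset_D hz)).2
        simp [Fsp, this]
      obtain ⟨z, hz, hzx⟩ := h1 hx
      rcases eq_or_ne z (-1) with rfl | hne
      · exfalso
        have : Fsp ψ (-1) = OnePoint.infty := by simp [Fsp]
        rw [this] at hzx
        exact OnePoint.infty_ne_coe x hzx
      · have h2 : Fsp ψ z = ((fsp ψ z : ℂ) : OnePoint ℂ) := by simp [Fsp, hne]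
        rw [h2] at hzx
        have h3 := OnePoint.coe_injective hzx
        rw [mem_closedBall_zero_iff] at hz
        rcases hz.lt_or_eq with h4 | h4
        · left
          exact ⟨z, by simpa using h4, h3⟩
        · right
          rw [← h3]
          exact circle_mem_slit hψ0 hψ1 (by simpa using h4) hne
    have hpre : IsPreconnected (p '' Ici 0) := isPreconnected_Ici.image p hpc.continuousOn
    have hne : (p '' Ici 0 ∩ fsp ψ '' ball 0 1).Nonempty := by
      have h0 : (0 : ℂ) ∈ fsp ψ '' ball 0 1 := ⟨0, mem_ball_self one_pos, hS.map_zero⟩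
      have hlim : Tendsto p atTop (𝓝 0) := by
        rw [tendsto_zero_iff_norm_tendsto_zero]
        have h1 : ∀ s : ℝ, ‖p s‖ = ‖w‖ * Real.exp (-(Real.cos ψ * s)) := by
          intro s
          simp only [p]
          rw [norm_mul, norm_exp, neg_re, re_mul_ofReal, exp_ofReal_mul_I_re]
        simp_rw [h1]
        have h2 : Tendsto (fun s : ℝ => Real.exp (-(Real.cos ψ * s))) atTop (𝓝 0) :=
          Real.tendsto_exp_neg_atTop_nhds_zero.comp (tendsto_id.const_mul_atTop hψ)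
        simpa using h2.const_mul ‖w‖
      have h1 := (hlim.eventually (hopen.mem_nhds h0)).and (eventually_ge_atTop 0)
      obtain ⟨s, hs1, hs2⟩ := h1.exists
      exact ⟨p s, mem_image_of_mem p hs2, hs1⟩
    have hsub := hpre.subset_of_closure_inter_subset hopen hne (by
      rintro x ⟨hx1, s, hs, rfl⟩
      rcases hcl hx1 with h | h
      · exact h
      · exact absurd h (hpΓ s hs))
    have hp0 : p 0 = w := by simp [p]
    rw [← hp0]
    exact hsub (mem_image_of_mem p self_mem_Ici)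
  · rintro _ ⟨t, ht, rfl⟩
    obtain ⟨z, hz, hz1, hzt⟩ := slit_mem_circle hψ0 hψ1 ht
    rw [← hzt]
    apply notMem_image_of_boundary hS.diff hS.inj hz
    have hzD : z ∈ D := mem_D_iff.mpr ⟨(mem_sphere_zero_iff_norm.mp hz).le, hz1⟩
    exact (fsp_differentiableAt hzD).continuousAt.tendsto.mono_left nhdsWithin_le_nhds

theorem fsp_isSlitMap {α : ℝ} (h0 : 0 < α) (h1 : α < 1) {β : ℝ} (hβ : α ≤ β) :
    IsSlitMap β (fsp (α * Real.pi / 2)) (γsp (α * Real.pi / 2)) := by
  have hψ0 : 0 < α * Real.pi / 2 := by positivity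
  have hψ1 : α * Real.pi / 2 < Real.pi / 2 := by nlinarith [Real.pi_pos]
  have hψ : 0 < Real.cos (α * Real.pi / 2) := Real.cos_pos_of_mem_Ioo ⟨by linarith, hψ1⟩
  refine ⟨fsp_classS hψ, γsp_isSlitArc hψ, fsp_compl hψ0 hψ1, ?_⟩
  intro t ht u hu
  have := γsp_angle hψ0 hψ1 ht hu
  have h2 : α * Real.pi / 2 ≤ β * Real.pi / 2 := by nlinarith [Real.pi_pos]
  exact this.trans h2

theorem fsp_hasTipAt {ψ : ℝ} (hψ0 : 0 < ψ) (hψ1 : ψ < Real.pi / 2) :
    HasTipAt (fsp ψ) (γsp ψ 0) (-(2 * ψ)) := by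
  have hψ : 0 < Real.cos ψ := Real.cos_pos_of_mem_Ioo ⟨by linarith, hψ1⟩
  refine ⟨Fsp ψ, Fsp_continuousOn hψ, ?_, ?_, ?_⟩
  · intro z hz
    have : z ≠ -1 := (mem_D_iff.mp (ball_subset_D hz)).2
    simp [Fsp, this]
  · intro z _
    by_cases h : z = -1
    · simp [Fsp, h]
    · simp [Fsp, h]
  · intro z hz
    have hγ0 : γsp ψ 0 = exp (exp (ψ * I) * ((Rf ψ (-(2 * ψ)) : ℝ) : ℂ)) := by
      unfold γsp; rw [add_zero]
    obtain ⟨a, b, -⟩ := exp_mul_I_mem (θ := -(2 * ψ)) (by linarith) (by linarith)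
    constructor
    · intro h
      have hne : z ≠ -1 := by
        rintro rfl
        have : Fsp ψ (-1) = OnePoint.infty := by simp [Fsp]
        rw [this] at h
        exact OnePoint.infty_ne_coe _ h
      have h2 : Fsp ψ z = ((fsp ψ z : ℂ) : OnePoint ℂ) := by simp [Fsp, hne]
      rw [h2] at h
      have h3 := OnePoint.coe_injective h
      obtain ⟨h4, h5, h6⟩ := exists_angle hz hne
      rw [h6, fsp_circle h4 h5, hγ0] at h3
      have h7 := exp_spiral_inj hψ h3
      by_contra hcon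
      have h8 : arg z ≠ -(2 * ψ) := by
        intro h9
        rw [h9] at h6
        exact hcon h6
      exact (Rf_gt hψ0 hψ1 h4 h5 h8).ne' h7
    · rintro rfl
      have h2 : Fsp ψ (exp ((-(2 * ψ) : ℝ) * I)) =
          ((fsp ψ (exp ((-(2 * ψ) : ℝ) * I)) : ℂ) : OnePoint ℂ) := by
        unfold Fsp
        rw [if_neg b]
      rw [h2, fsp_circle (by linarith) (by linarith), hγ0]

/-- `α' π` belongs to the set of tip angles of `S_α` whenever `0 < α' < 1` and `α' ≤ α`. -/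
theorem mem_tipSet {α β : ℝ} (h0 : 0 < α) (h1 : α < 1) (hβ : α ≤ β) :
    α * Real.pi ∈ tipSet β := by
  have hψ0 : 0 < α * Real.pi / 2 := by positivity
  have hψ1 : α * Real.pi / 2 < Real.pi / 2 := by nlinarith [Real.pi_pos]
  refine ⟨_, _, -(2 * (α * Real.pi / 2)), fsp_isSlitMap h0 h1 hβ, by linarith, by linarith,
    fsp_hasTipAt hψ0 hψ1, ?_⟩
  rw [abs_neg, abs_of_pos (by linarith)]
  ring

/-- Solution of the problem: `sup { |φ_f| : f ∈ S_α, f (-1) = ∞ } = α π` for every `0 < α ≤ 1`. -/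
theorem result (α : ℝ) (h0 : 0 < α) (h1 : α ≤ 1) : IsLUB (tipSet α) (α * Real.pi) := by
  refine ⟨fun x hx => upper_bound h0 h1 hx, fun B hB => ?_⟩
  rcases h1.lt_or_eq with h | rfl
  · exact hB (mem_tipSet h0 h le_rfl)
  · rw [one_mul]
    apply le_of_forall_lt
    intro c hc
    have hp := Real.pi_pos
    -- a parameter `a < 1` with `c < a π`
    set a : ℝ := max (1 / 2) ((1 + c / Real.pi) / 2) with ha
    have hc1 : c / Real.pi < 1 := (div_lt_one hp).mpr hc
    have ha1 : a < 1 := max_lt (by norm_num) (by linarith)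
    have ha0 : 0 < a := lt_of_lt_of_le (by norm_num) (le_max_left _ _)
    have h2 : a * Real.pi ≤ B := hB (mem_tipSet ha0 ha1 ha1.le)
    have h3 : c / Real.pi < a := lt_of_lt_of_le (by linarith) (le_max_right _ _)
    have h4 : c < a * Real.pi := (div_lt_iff₀ hp).mp h3
    linarith

end Pool.Agent.Results.MP_70d5b9_an.TipSupremum
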